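import Pool.Agent.J4.H93.WS.WS6
import Pool.Agent.R869.WHgt

/-!
Sets of exponent vectors given by polynomials in several parameters are wide, for all parameters outside of a sparse set, if no
polynomial direction has constant widths.
-/

set_option autoImplicit false

namespace Pool.Agent.J4.H93.WS

open Filter Pool.Agent.R869.Wd

section generic

variable {R : Type} [CommRing R] [IsDomain R] {τ : Type} {F : Filter τ} {ev : τ → R →+* ℤ}

/-- Directions of given widths. -/
theorem no_direction' (h0 : ∀ P : R, P ≠ 0 → ∀ᶠ t in F, ev t P ≠ 0)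
    (h1 : ∀ D G : R, D ≠ 0 → (∀ c : ℤ, c ≠ 0 → ¬ D ∣ (c : R) * G) → ∀ᶠ t in F, ¬ ev t D ∣ ev t G)
    {n r : ℕ} {I : Finset (Fin (n + 1))} (hI : I.Nonempty) (M : Fin r → Fin (n + 1) → R)
    (hsupp : ∀ l, ∀ j ∉ I, M l j = 0) (hsum : ∀ l, ∑ j, M l j = 0)
    (hconst : ∀ u : Fin (n + 1) → R, (∀ l, ∃ c : ℤ, ∑ j, u j * M l j = (c : R)) → ∀ i ∈ I, ∀ j ∈ I, u i = u j)
    (w : Fin r → ℤ) : ∀ᶠ t in F, ¬ ∃ u : Fin (n + 1) → ℤ, (∃ i ∈ I, ∃ j ∈ I, u i ≠ u j) ∧
      ∀ l, ∑ j, u j * ev t (M l j) = w l := by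
  classical
  obtain ⟨i₀, hi₀⟩ := hI
  let K := FractionRing R
  let φ : R →+* K := algebraMap R K
  have hφ : Function.Injective φ := IsFractionRing.injective R K
  let I' := {j : Fin (n + 1) // j ∈ I ∧ j ≠ i₀}
  let f : (I' → K) →ₗ[K] (Fin r → K) :=
    { toFun := fun u l => ∑ j : I', u j * φ (M l j)
      map_add' := by
        intro u v
        funext l
        simp only [Pi.add_apply, add_mul, Finset.sum_add_distrib]
      map_smul' := by
        intro c u
        funext l
        simp only [Pi.smul_apply, smul_eq_mul, RingHom.id_apply, mul_assoc]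
        exact (Finset.mul_sum _ _ _).symm }
  -- sums over all the coordinates
  have hsumI : ∀ {R : Type} [CommRing R] (g : Fin (n + 1) → R), (∀ j, j ∉ I → g j = 0) → g i₀ = 0 →
      ∑ j, g j = ∑ j : I', g j := by
    intro R _ g hg hg0
    have h1 : ∑ j : I', g j = ∑ j ∈ Finset.univ.filter (fun j => j ∈ I ∧ j ≠ i₀), g j := by
      rw [← Finset.sum_subtype_eq_sum_filter]
      simp only [Finset.subtype_univ]
      rfl
    rw [h1]
    symm
    apply Finset.sum_subset (Finset.filter_subset _ _)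
    intro j _ hj
    simp only [Finset.mem_filter, Finset.mem_univ, true_and, not_and, not_not] at hj
    by_cases h2 : j ∈ I
    · rw [hj h2]
      exact hg0
    · exact hg j h2
  have hinj : LinearMap.ker f = ⊥ := by
    rw [LinearMap.ker_eq_bot']
    intro u hu
    obtain ⟨D, hD⟩ := IsLocalization.exist_integer_multiples_of_finite (nonZeroDivisors R) u
    choose v hv using hD
    have hD0 : φ (D : R) ≠ 0 := by
      intro h0
      exact nonZeroDivisors.coe_ne_zero D (hφ (by rw [h0, map_zero]))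
    have hv' : ∀ j, φ (v j) = φ (D : R) * u j := fun j => by
      have h1 := hv j
      rw [Algebra.smul_def] at h1
      exact h1
    let v' : Fin (n + 1) → R := fun j => if h : j ∈ I ∧ j ≠ i₀ then v ⟨j, h⟩ else 0
    have hv'1 : ∀ j : I', v' j = v j := fun j => by
      simp only [v']
      rw [dif_pos j.2]
    have h1 := hconst v' (fun l => ⟨0, by
      rw [hsumI (fun j => v' j * M l j) (fun j hj => by rw [hsupp l j hj, mul_zero]) (by simp [v'])]
      apply hφ
      rw [map_sum, Int.cast_zero, map_zero]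
      have h2 := congrFun hu l
      simp only [f, LinearMap.coe_mk, AddHom.coe_mk, Pi.zero_apply] at h2
      calc ∑ j : I', φ (v' j * M l j) = φ (D : R) * ∑ j : I', u j * φ (M l j) := by
            rw [Finset.mul_sum]
            refine Finset.sum_congr rfl fun j _ => ?_
            rw [map_mul, hv'1, hv']
            ring
        _ = 0 := by rw [h2, mul_zero]⟩)
    funext j
    have h2 := h1 j j.2.1 i₀ hi₀
    have h3 : v' i₀ = 0 := by simp [v']
    rw [hv'1, h3] at h2
    have h4 := hv' j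
    rw [h2, map_zero] at h4
    exact (mul_eq_zero.1 h4.symm).resolve_left hD0
  obtain ⟨g, hg⟩ := LinearMap.exists_leftInverse_of_injective f hinj
  -- the denominators
  obtain ⟨D, hD⟩ := IsLocalization.exist_integer_multiples_of_finite (nonZeroDivisors R)
    (fun x : I' × Fin r => g (Pi.single x.2 1) x.1)
  choose P hP using hD
  have hD0 : (D : R) ≠ 0 := nonZeroDivisors.coe_ne_zero D
  have hP' : ∀ j l, φ (P (j, l)) = φ (D : R) * g (Pi.single l 1) j := fun j l => by
    have h1 := hP (j, l)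
    rw [Algebra.smul_def] at h1
    exact h1
  have hPM : ∀ j j' : I', ∑ l, P (j, l) * M l j' = if j = j' then (D : R) else 0 := by
    intro j j'
    apply hφ
    rw [map_sum]
    have h1 : g (f (Pi.single j' 1)) = Pi.single j' 1 := by
      have h2 := congrArg (fun L => L (Pi.single j' (1 : K))) hg
      simpa using h2
    have h2 : f (Pi.single j' 1) = ∑ l, φ (M l j') • (Pi.single l (1 : K) : Fin r → K) := by
      funext l
      simp only [f, LinearMap.coe_mk, AddHom.coe_mk, Finset.sum_apply, Pi.smul_apply, smul_eq_mul]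
      rw [Finset.sum_eq_single j', Finset.sum_eq_single l]
      · simp
      · intro l' _ hl'
        rw [Pi.single_eq_of_ne hl'.symm, mul_zero]
      · exact fun h => absurd (Finset.mem_univ _) h
      · intro j'' _ hj''
        rw [Pi.single_eq_of_ne hj'', zero_mul]
      · exact fun h => absurd (Finset.mem_univ _) h
    rw [h2, map_sum] at h1
    have h3 := congrFun h1 j
    rw [Finset.sum_apply] at h3
    calc ∑ l, φ (P (j, l) * M l j') = φ (D : R) * ∑ l, (g (φ (M l j') • (Pi.single l (1 : K) : Fin r → K))) j := by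
          rw [Finset.mul_sum]
          refine Finset.sum_congr rfl fun l _ => ?_
          rw [map_mul, hP', map_smul, Pi.smul_apply, smul_eq_mul]
          ring
      _ = φ (if j = j' then (D : R) else 0) := by
          rw [h3]
          by_cases h : j = j'
          · subst h
            simp
          · rw [Pi.single_eq_of_ne h, if_neg h, mul_zero, map_zero]
  -- the numerators
  let G : I' → R := fun j => ∑ l, P (j, l) * (w l : R)
  have hsum0 : ∀ (t : τ) (l : Fin r), ∑ j, ev t (M l j) = 0 := fun t l => by rw [← map_sum, hsum, map_zero]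
  have hcent : ∀ (t : τ) (u : Fin (n + 1) → ℤ), (∀ l, ∑ j, u j * ev t (M l j) = w l) →
      ∀ l, w l = ∑ j' : I', (u j' - u i₀) * ev t (M l j') := by
    intro t u hu l
    rw [← hsumI (fun j => (u j - u i₀) * ev t (M l j)) (fun j hj => by
      rw [hsupp l j hj, map_zero, mul_zero]) (by ring), ← hu l]
    simp only [sub_mul, Finset.sum_sub_distrib, ← Finset.mul_sum]
    rw [hsum0, mul_zero, sub_zero]
  have hkey : ∀ (t : τ) (u : Fin (n + 1) → ℤ), (∀ l, ∑ j, u j * ev t (M l j) = w l) →
      ∀ j : I', ev t (G j) = ev t (D : R) * (u j - u i₀) := by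
    intro t u hu j
    have h1 := hcent t u hu
    have h3 : ev t (G j) = ∑ l, ev t (P (j, l)) * w l := by
      simp only [G, map_sum, map_mul, map_intCast, Int.cast_id]
    rw [h3]
    calc ∑ l, ev t (P (j, l)) * w l
        = ∑ l, ∑ j' : I', ev t (P (j, l)) * ((u j' - u i₀) * ev t (M l j')) := by
          refine Finset.sum_congr rfl fun l _ => ?_
          rw [h1 l, Finset.mul_sum]
      _ = ∑ j' : I', (u j' - u i₀) * ev t (∑ l, P (j, l) * M l j') := by
          rw [Finset.sum_comm]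
          refine Finset.sum_congr rfl fun j' _ => ?_
          rw [map_sum, Finset.mul_sum]
          refine Finset.sum_congr rfl fun l _ => ?_
          rw [map_mul]
          ring
      _ = _ := by
          rw [Finset.sum_eq_single j]
          · rw [hPM, if_pos rfl]
            ring
          · intro j' _ hj'
            rw [hPM, if_neg hj'.symm, map_zero, mul_zero]
          · exact fun h => absurd (Finset.mem_univ _) h
  by_cases hdiv : ∀ j : I', ∃ (c : ℤ) (Q : R), c ≠ 0 ∧ (c : R) * G j = (D : R) * Q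
  swap
  · push Not at hdiv
    obtain ⟨j, hj⟩ := hdiv
    filter_upwards [h1 (D : R) (G j) hD0 (fun c hc => by
      rintro ⟨Q, hQ⟩
      exact hj c Q hc hQ)] with t ht
    rintro ⟨u, -, hu⟩
    apply ht
    rw [hkey t u hu j]
    exact dvd_mul_right _ _
  choose c Q hc hQ using hdiv
  obtain ⟨c', hc'⟩ : ∃ c' : ℤ, c' = ∏ j, c j := ⟨_, rfl⟩
  have hc'0 : c' ≠ 0 := by
    rw [hc']
    exact Finset.prod_ne_zero_iff.2 fun j _ => hc j
  let v : Fin (n + 1) → R := fun j => if h : j ∈ I ∧ j ≠ i₀ then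
    ((∏ j' ∈ Finset.univ.erase (⟨j, h⟩ : I'), c j' : ℤ) : R) * Q ⟨j, h⟩ else 0
  have hv : ∀ j : I', v j = ((∏ j' ∈ Finset.univ.erase j, c j' : ℤ) : R) * Q j := fun j => by
    simp only [v]
    rw [dif_pos j.2]
  have hv0 : v i₀ = 0 := by simp [v]
  have hvG : ∀ j : I', (c' : R) * G j = (D : R) * v j := by
    intro j
    have h2 : (c' : R) = (c j : R) * ((∏ j' ∈ Finset.univ.erase j, c j' : ℤ) : R) := by
      rw [hc', ← Finset.mul_prod_erase Finset.univ c (Finset.mem_univ j), Int.cast_mul]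
    rw [hv, h2]
    linear_combination (((∏ j' ∈ Finset.univ.erase j, c j' : ℤ) : R)) * hQ j
  have hvu : ∀ (t : τ) (u : Fin (n + 1) → ℤ), (∀ l, ∑ j, u j * ev t (M l j) = w l) →
      ev t (D : R) ≠ 0 → ∀ j : I', ev t (v j) = c' * (u j - u i₀) := by
    intro t u hu ht j
    have h1 := congrArg (ev t) (hvG j)
    rw [map_mul, map_mul, map_intCast, Int.cast_id, hkey t u hu j] at h1
    apply mul_left_cancel₀ ht
    linear_combination -h1
  by_cases hl : ∀ l, ∑ j, v j * M l j = ((c' * w l : ℤ) : R)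
  · have hvc := hconst v fun l => ⟨_, hl l⟩
    filter_upwards [h0 (D : R) hD0] with t ht
    rintro ⟨u, ⟨i, hi, j, hj, hij⟩, hu⟩
    have hu0 : ∀ j ∈ I, u j = u i₀ := by
      intro j hj
      by_cases h : j = i₀
      · rw [h]
      · have h1 := hvu t u hu ht ⟨j, hj, h⟩
        have h2 : v j = 0 := by rw [hvc j hj i₀ hi₀, hv0]
        rw [h2, map_zero] at h1
        have h3 := (mul_eq_zero.1 h1.symm).resolve_left hc'0
        exact sub_eq_zero.1 h3
    exact hij ((hu0 i hi).trans (hu0 j hj).symm)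
  · push Not at hl
    obtain ⟨l, hl⟩ := hl
    filter_upwards [h0 (D : R) hD0, h0 _ (sub_ne_zero.2 hl)] with t ht ht'
    rintro ⟨u, -, hu⟩
    apply ht'
    rw [map_sub, map_sum, map_intCast, Int.cast_id]
    simp only [map_mul]
    rw [hsumI (fun j => ev t (v j) * ev t (M l j)) (fun j hj => by
      rw [hsupp l j hj, map_zero, mul_zero]) (by rw [hv0, map_zero, zero_mul])]
    have h1 : ∑ j : I', ev t (v j) * ev t (M l j) = c' * ∑ j : I', (u j - u i₀) * ev t (M l j) := by
      rw [Finset.mul_sum]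
      refine Finset.sum_congr rfl fun j _ => ?_
      rw [hvu t u hu ht j]
      ring
    rw [h1, ← hcent t u hu l, sub_self]

/-- No direction has constant widths: consider a set `I` of variables and at most `n` pairs of the exponent vectors `A e i`, the
two vectors of a pair with the same `e`, such that only the variables from `I` occur. If all directions `u` in `R ^ (n + 1)` for
which the widths `∑ u_j (A e p j - A e q j)` of all the pairs vanish are constant on `I`, then all directions `u` in `R ^ (n + 1)`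
for which the widths of all the pairs are integers are constant on `I`. -/
def NoConstantWidthsR {n s : ℕ} {ι : Type} (A : ι → Fin s → Fin (n + 1) → R) : Prop :=
  ∀ (I : Finset (Fin (n + 1))) (r : ℕ) (e : Fin r → ι) (p q : Fin r → Fin s), r ≤ n →
    (∀ l, ∀ j ∉ I, A (e l) (p l) j = 0 ∧ A (e l) (q l) j = 0) →
    (∀ u : Fin (n + 1) → R, (∀ l, ∑ j, u j * (A (e l) (p l) j - A (e l) (q l) j) = 0) →
      ∀ i ∈ I, ∀ j ∈ I, u i = u j) →
    ∀ u : Fin (n + 1) → R, (∀ l, ∃ c : ℤ, ∑ j, u j * (A (e l) (p l) j - A (e l) (q l) j) = (c : R)) →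
      ∀ i ∈ I, ∀ j ∈ I, u i = u j

theorem wide_generic (h0 : ∀ P : R, P ≠ 0 → ∀ᶠ t in F, ev t P ≠ 0)
    (h1 : ∀ D G : R, D ≠ 0 → (∀ c : ℤ, c ≠ 0 → ¬ D ∣ (c : R) * G) → ∀ᶠ t in F, ¬ ev t D ∣ ev t G)
    {n s : ℕ} {ι : Type} [Finite ι] {A : ι → Fin s → Fin (n + 1) → R}
    (hdeg : ∀ e i i', ∑ j, A e i j = ∑ j, A e i' j) (hA : NoConstantWidthsR A) (N : ℕ) :
    ∀ᶠ t in F, ∀ T : ι → Finset (Fin (n + 1) →₀ ℕ),
      (∀ e, ∀ α ∈ T e, ∃ i, ∀ j, (α j : ℤ) = ev t (A e i j)) → WideT ∅ T N := by
  classical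
  have h2 : ∀ᶠ t in F, ∀ e i j, A e i j ≠ 0 → ev t (A e i j) ≠ 0 := by
    rw [eventually_all]
    intro e
    rw [eventually_all]
    intro i
    rw [eventually_all]
    intro j
    by_cases h : A e i j = 0
    · exact Eventually.of_forall fun t h' => absurd h h'
    · filter_upwards [h0 _ h] with t ht _
      exact ht
  have h3 : ∀ᶠ t in F, ∀ (I : Finset (Fin (n + 1))) (r : Fin (n + 1)) (e : Fin r → ι) (p q : Fin r → Fin s),
      (¬ ∀ u : Fin (n + 1) → R, (∀ l, ∑ j, u j * (A (e l) (p l) j - A (e l) (q l) j) = 0) →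
        ∀ i ∈ I, ∀ j ∈ I, u i = u j) →
      ∃ u : Fin (n + 1) → ℤ, (∃ i ∈ I, ∃ j ∈ I, u i ≠ u j) ∧
        ∀ l, ∑ j, u j * (ev t (A (e l) (p l) j) - ev t (A (e l) (q l) j)) = 0 := by
    rw [eventually_all]
    intro I
    rw [eventually_all]
    intro r
    rw [eventually_all]
    intro e
    rw [eventually_all]
    intro p
    rw [eventually_all]
    intro q
    by_cases h : ∀ u : Fin (n + 1) → R, (∀ l, ∑ j, u j * (A (e l) (p l) j - A (e l) (q l) j) = 0) →
        ∀ i ∈ I, ∀ j ∈ I, u i = u j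
    · exact Eventually.of_forall fun t h' => absurd h h'
    · have h' := h
      push Not at h'
      obtain ⟨u, hu, i, hi, j, hj, hij⟩ := h'
      filter_upwards [h0 _ (sub_ne_zero.2 hij)] with t ht _
      refine ⟨fun j => ev t (u j), ⟨i, hi, j, hj, fun h0 => ht ?_⟩, fun l => ?_⟩
      · rw [map_sub]
        exact sub_eq_zero.2 h0
      · have h3 := congrArg (ev t) (hu l)
        rw [map_sum, map_zero] at h3
        rw [← h3]
        refine Finset.sum_congr rfl fun j _ => ?_
        rw [map_mul, map_sub]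
  have h4 : ∀ᶠ t in F, ∀ (I : Finset (Fin (n + 1))) (r : Fin (n + 1)) (e : Fin r → ι) (p q : Fin r → Fin s)
      (w : Fin r → Fin (2 * N + 1)),
      (∀ l, ∀ j ∉ I, A (e l) (p l) j = 0 ∧ A (e l) (q l) j = 0) →
      (∀ u : Fin (n + 1) → R, (∀ l, ∑ j, u j * (A (e l) (p l) j - A (e l) (q l) j) = 0) →
        ∀ i ∈ I, ∀ j ∈ I, u i = u j) →
      ¬ ∃ u : Fin (n + 1) → ℤ, (∃ i ∈ I, ∃ j ∈ I, u i ≠ u j) ∧
        ∀ l, ∑ j, u j * (ev t (A (e l) (p l) j) - ev t (A (e l) (q l) j)) = ((w l : ℕ) : ℤ) - N := by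
    rw [eventually_all]
    intro I
    rw [eventually_all]
    intro r
    rw [eventually_all]
    intro e
    rw [eventually_all]
    intro p
    rw [eventually_all]
    intro q
    rw [eventually_all]
    intro w
    by_cases hs : ∀ l, ∀ j ∉ I, A (e l) (p l) j = 0 ∧ A (e l) (q l) j = 0
    swap
    · exact Eventually.of_forall fun t h' => absurd h' hs
    by_cases hr : ∀ u : Fin (n + 1) → R, (∀ l, ∑ j, u j * (A (e l) (p l) j - A (e l) (q l) j) = 0) →
        ∀ i ∈ I, ∀ j ∈ I, u i = u j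
    swap
    · exact Eventually.of_forall fun t _ h' => absurd h' hr
    by_cases hI : I.Nonempty
    swap
    · refine Eventually.of_forall fun t _ _ => ?_
      rintro ⟨u, ⟨i, hi, -⟩, -⟩
      exact hI ⟨i, hi⟩
    have h4 := no_direction' h0 h1 hI (fun l j => A (e l) (p l) j - A (e l) (q l) j)
      (fun l j hj => by rw [(hs l j hj).1, (hs l j hj).2, sub_zero])
      (fun l => by rw [Finset.sum_sub_distrib, hdeg (e l) (p l) (q l), sub_self])
      (hA I r e p q (Nat.le_of_lt_succ r.2) hs hr) (fun l => ((w l : ℕ) : ℤ) - N)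
    filter_upwards [h4] with t ht _ _
    simpa only [map_sub] using ht
  filter_upwards [h2, h3, h4] with t ht1 ht2 ht3 T hT
  intro I r e α β _ hr hmem hpos u hu _
  choose p hp using fun l => hT (e l) (α l) (hmem l).1
  choose q hq using fun l => hT (e l) (β l) (hmem l).2.1
  let J : Finset (Fin (n + 1)) := Finset.univ.filter fun j => j ∈ I
  have hJ : ∀ j, j ∈ J ↔ j ∈ I := fun j => by simp [J]
  have hw : ∀ (u : Fin (n + 1) → ℤ) (l : Fin r), wgt u (α l) - wgt u (β l) =
      ∑ j, u j * (ev t (A (e l) (p l) j) - ev t (A (e l) (q l) j)) := by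
    intro u l
    unfold wgt
    rw [← Finset.sum_sub_distrib]
    refine Finset.sum_congr rfl fun j _ => ?_
    rw [← hp l j, ← hq l j]
    ring
  have hs : ∀ l, ∀ j ∉ J, A (e l) (p l) j = 0 ∧ A (e l) (q l) j = 0 := by
    intro l j hj
    have h4 := (hmem l).2.2 j (fun h => hj ((hJ j).2 h))
    constructor
    · by_contra h5
      apply ht1 _ _ _ h5
      rw [← hp l j, h4.1]
      rfl
    · by_contra h5
      apply ht1 _ _ _ h5
      rw [← hq l j, h4.2]
      rfl
  have hr' : ∀ u : Fin (n + 1) → R, (∀ l, ∑ j, u j * (A (e l) (p l) j - A (e l) (q l) j) = 0) →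
      ∀ i ∈ J, ∀ j ∈ J, u i = u j := by
    by_contra hcon
    obtain ⟨u', ⟨i, hi, j, hj, hij⟩, hu'⟩ := ht2 J ⟨r, Nat.lt_succ_of_le hr⟩ e p q hcon
    have h4 := hpos u' ⟨i, (hJ i).1 hi, j, (hJ j).1 hj, hij⟩
    rw [Finset.sum_eq_zero fun l _ => by rw [hw, hu', abs_zero]] at h4
    exact lt_irrefl _ h4
  by_contra hcon
  push Not at hcon
  have hlt : ∀ l, |wgt u (α l) - wgt u (β l)| < N := fun l =>
    (Finset.single_le_sum (f := fun l => |wgt u (α l) - wgt u (β l)|) (fun _ _ => abs_nonneg _)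
      (Finset.mem_univ l)).trans_lt hcon
  obtain ⟨i, hi, j, hj, hij⟩ := hu
  refine ht3 J ⟨r, Nat.lt_succ_of_le hr⟩ e p q
    (fun l => ⟨(wgt u (α l) - wgt u (β l) + N).toNat, ?_⟩) hs hr'
    ⟨u, ⟨i, (hJ i).2 hi, j, (hJ j).2 hj, hij⟩, fun l => ?_⟩
  · have h4 := abs_lt.1 (hlt l)
    omega
  · rw [← hw]
    have h4 := abs_lt.1 (hlt l)
    push_cast
    omega

omit [IsDomain R] in
/-- The condition holds if the exponent vectors coincide at one point. -/
theorem noConst_of_point {n s : ℕ} {ι : Type} {A : ι → Fin s → Fin (n + 1) → R} (φ : R →+* ℤ)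
    (h : ∀ e i i' j, φ (A e i j) = φ (A e i' j)) : NoConstantWidthsR A := by
  intro I r e p q _ _ hrank u hu i hi j hj
  refine hrank u (fun l => ?_) i hi j hj
  obtain ⟨c, hc⟩ := hu l
  have h1 := congrArg φ hc
  rw [map_sum, map_intCast, Int.cast_id, Finset.sum_eq_zero (fun j _ => by
    rw [map_mul, map_sub, h (e l) (p l) (q l) j, sub_self, mul_zero])] at h1
  rw [hc, ← h1, Int.cast_zero]

end generic

/-- Several parameters. -/
theorem wide_family {m n s : ℕ} {ι : Type} [Finite ι] {A : ι → Fin s → Fin (n + 1) → MvPolynomial (Fin m) ℤ}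
    (hdeg : ∀ e i i', ∑ j, A e i j = ∑ j, A e i' j) (hA : NoConstantWidthsR A) (N : ℕ) :
    ∀ᶠ t in sparseFilter m, ∀ T : ι → Finset (Fin (n + 1) →₀ ℕ),
      (∀ e, ∀ α ∈ T e, ∃ i, ∀ j, (α j : ℤ) = evn t (A e i j)) → WideT ∅ T N := by
  refine wide_generic (F := sparseFilter m) (ev := evn) (fun P hP => eventually_ne hP) (fun D G hD h => ?_) hdeg hA N
  rw [eventually_sparse]
  refine (sparse_dvd hD fun c hc hdvd => h c hc ?_).mono fun t ht => not_not.1 ht
  have hC : (MvPolynomial.C c : MvPolynomial (Fin m) ℤ) = (c : MvPolynomial (Fin m) ℤ) := by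
    rw [← map_intCast (MvPolynomial.C (σ := Fin m) (R := ℤ)) c, Int.cast_id]
  rwa [hC] at hdvd

end Pool.Agent.J4.H93.WS
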