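import Pool.Agent.J4.H93.WS.WS3
import Pool.Agent.J4.H93.WS.WS7
import Pool.Agent.R869.WAlm

/-!
Sets of exponent vectors given by integral matrices.
-/

set_option autoImplicit false

namespace Pool.Agent.J4.H93.WS

open MvPolynomial Pool.Agent.R869.Wd

open Classical in
/-- The set of the exponent vectors among the rows of the matrix `a`. -/
noncomputable def expT {s n : ℕ} (a : Fin s → Fin (n + 1) → ℤ) : Finset (Fin (n + 1) →₀ ℕ) :=
  (Finset.univ.filter fun i => ∀ j, 0 ≤ a i j).image fun i => Finsupp.equivFunOnFinite.symm fun j => (a i j).toNat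

theorem mem_expT {s n : ℕ} {a : Fin s → Fin (n + 1) → ℤ} {α : Fin (n + 1) →₀ ℕ} :
    α ∈ expT a ↔ ∃ i, ∀ j, (α j : ℤ) = a i j := by
  classical
  unfold expT
  rw [Finset.mem_image]
  constructor
  · rintro ⟨i, hi, rfl⟩
    refine ⟨i, fun j => ?_⟩
    rw [Finsupp.equivFunOnFinite_symm_apply_apply]
    exact Int.toNat_of_nonneg ((Finset.mem_filter.1 hi).2 j)
  · rintro ⟨i, hi⟩
    refine ⟨i, Finset.mem_filter.2 ⟨Finset.mem_univ _, fun j => by rw [← hi j]; exact Int.natCast_nonneg _⟩, ?_⟩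
    ext j
    rw [Finsupp.equivFunOnFinite_symm_apply_apply, ← hi j]
    exact Int.toNat_natCast _

theorem card_expT {s n : ℕ} (a : Fin s → Fin (n + 1) → ℤ) : (expT a).card ≤ s := by
  classical
  unfold expT
  refine Finset.card_image_le.trans ((Finset.card_filter_le _ _).trans (le_of_eq ?_))
  rw [Finset.card_univ, Fintype.card_fin]

theorem form_expT {s n : ℕ} {a : Fin s → Fin (n + 1) → ℤ} (ha : ∀ i i', ∑ j, a i j = ∑ j, a i' j) {k : Type} [Field k]
    {G : MvPolynomial (Fin (n + 1)) k} (hG : G.support ⊆ expT a) : ∃ d, G.IsHomogeneous d := by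
  by_cases h : G.support.Nonempty
  · obtain ⟨β, hβ⟩ := h
    refine ⟨∑ j, β j, isForm_of_deg fun α hα => ?_⟩
    obtain ⟨i, hi⟩ := mem_expT.1 (hG hα)
    obtain ⟨i', hi'⟩ := mem_expT.1 (hG hβ)
    have h1 : ((∑ j, α j : ℕ) : ℤ) = ((∑ j, β j : ℕ) : ℤ) := by
      push_cast
      rw [Finset.sum_congr rfl fun j _ => hi j, Finset.sum_congr rfl fun j _ => hi' j]
      exact ha i i'
    exact_mod_cast h1
  · rw [Finset.not_nonempty_iff_eq_empty] at h
    refine ⟨0, isForm_of_deg fun α hα => ?_⟩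
    rw [h] at hα
    exact absurd hα (Finset.notMem_empty _)

/-- **One parameter.** -/
theorem wide_one {n s : ℕ} {ι : Type} [Finite ι] {A : ι → Fin s → Fin (n + 1) → Polynomial ℤ}
    (hdeg : ∀ e i i', ∑ j, A e i j = ∑ j, A e i' j) (hA : NoConstantWidths A) (N : ℕ) :
    ∃ t₀ : ℕ, ∀ t : ℕ, t₀ ≤ t → WideT ∅ (fun e => expT fun i j => (A e i j).eval (t : ℤ)) N := by
  obtain ⟨t₀, h⟩ := Filter.eventually_atTop.1 (wide_poly hdeg hA N)
  exact ⟨t₀, fun t ht => h t ht _ fun e α hα => mem_expT.1 hα⟩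

/-- **Several parameters.** -/
theorem wide_several {m n s : ℕ} {ι : Type} [Finite ι] {A : ι → Fin s → Fin (n + 1) → MvPolynomial (Fin m) ℤ}
    (hdeg : ∀ e i i', ∑ j, A e i j = ∑ j, A e i' j) (hA : NoConstantWidthsR A) (N : ℕ) :
    Sparse {t : Fin m → ℕ | ¬ WideT ∅ (fun e => expT fun i j => evn t (A e i j)) N} := by
  have h := wide_family hdeg hA N
  rw [eventually_sparse] at h
  exact h.mono fun t ht hcon => ht (hcon _ fun e α hα => mem_expT.1 hα)

/-- The condition for one parameter holds if the leading coefficients have full rank. -/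
theorem noConst_of_leading {n s : ℕ} {ι : Type} {A : ι → Fin s → Fin (n + 1) → Polynomial ℤ} (k : ℕ) (hk : 1 ≤ k)
    (hd : ∀ e i j, (A e i j).natDegree ≤ k)
    (hl : ∀ (I : Finset (Fin (n + 1))) (r : ℕ) (e : Fin r → ι) (p q : Fin r → Fin s), r ≤ n →
      (∀ l, ∀ j ∉ I, A (e l) (p l) j = 0 ∧ A (e l) (q l) j = 0) →
      (∀ u : Fin (n + 1) → Polynomial ℤ, (∀ l, ∑ j, u j * (A (e l) (p l) j - A (e l) (q l) j) = 0) →
        ∀ i ∈ I, ∀ j ∈ I, u i = u j) →
      ∀ u : Fin (n + 1) → ℤ, (∀ l, ∑ j, u j * ((A (e l) (p l) j).coeff k - (A (e l) (q l) j).coeff k) = 0) →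
        ∀ i ∈ I, ∀ j ∈ I, u i = u j)
    (hdeg : ∀ e i i', ∑ j, A e i j = ∑ j, A e i' j) :
    NoConstantWidths A := by
  classical
  intro I r e p q hr hs hrank u hu i₀ hi₀ j₀ hj₀
  by_contra hne
  -- the normalised direction
  let v : Fin (n + 1) → Polynomial ℤ := fun j => if j ∈ I then u j - u i₀ else 0
  have hM : ∀ l, ∑ j, (A (e l) (p l) j - A (e l) (q l) j) = 0 := fun l => by
    rw [Finset.sum_sub_distrib, hdeg (e l) (p l) (q l), sub_self]
  have hv : ∀ l, ∃ c : ℤ, ∑ j, v j * (A (e l) (p l) j - A (e l) (q l) j) = Polynomial.C c := by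
    intro l
    obtain ⟨c, hc⟩ := hu l
    refine ⟨c, ?_⟩
    rw [← hc]
    have h1 : ∀ j, v j * (A (e l) (p l) j - A (e l) (q l) j) =
        u j * (A (e l) (p l) j - A (e l) (q l) j) - u i₀ * (A (e l) (p l) j - A (e l) (q l) j) := by
      intro j
      by_cases hj : j ∈ I
      · simp only [v, if_pos hj]
        ring
      · rw [(hs l j hj).1, (hs l j hj).2]
        ring
    rw [Finset.sum_congr rfl fun j _ => h1 j, Finset.sum_sub_distrib, ← Finset.mul_sum, hM, mul_zero, sub_zero]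
  -- the degree
  obtain ⟨d, hd1⟩ : ∃ d, d = Finset.univ.sup fun j => (v j).natDegree := ⟨_, rfl⟩
  have hvd : ∀ j, (v j).natDegree ≤ d := fun j => by
    rw [hd1]
    exact Finset.le_sup (f := fun j => (v j).natDegree) (Finset.mem_univ j)
  have hcoef : ∀ l, ∑ j, (v j).coeff d * ((A (e l) (p l) j).coeff k - (A (e l) (q l) j).coeff k) = 0 := by
    intro l
    obtain ⟨c, hc⟩ := hv l
    have h1 := congrArg (fun P : Polynomial ℤ => P.coeff (d + k)) hc
    simp only [Polynomial.finsetSum_coeff] at h1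
    rw [Polynomial.coeff_C_ne_zero (by omega)] at h1
    rw [← h1]
    refine Finset.sum_congr rfl fun j _ => ?_
    rw [Polynomial.coeff_mul_add_eq_of_natDegree_le (hvd j) ((Polynomial.natDegree_sub_le _ _).trans
      (max_le (hd _ _ _) (hd _ _ _))), Polynomial.coeff_sub]
  have h2 := hl I r e p q hr hs hrank (fun j => (v j).coeff d) hcoef
  have h3 : v i₀ = 0 := by
    simp only [v, if_pos hi₀, sub_self]
  have h4 : ∀ j ∈ I, (v j).coeff d = 0 := by
    intro j hj
    rw [h2 j hj i₀ hi₀, h3, Polynomial.coeff_zero]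
  have h5 : ∀ j, (v j).coeff d = 0 := by
    intro j
    by_cases hj : j ∈ I
    · exact h4 j hj
    · simp only [v, if_neg hj, Polynomial.coeff_zero]
  obtain ⟨j₁, -, hj₁⟩ := Finset.exists_mem_eq_sup (Finset.univ : Finset (Fin (n + 1))) Finset.univ_nonempty
    (fun j => (v j).natDegree)
  have h6 : v j₁ = 0 := by
    by_contra h0
    have h7 := Polynomial.leadingCoeff_ne_zero.2 h0
    rw [Polynomial.leadingCoeff, ← hj₁, ← hd1] at h7
    exact h7 (h5 j₁)
  have h8 : d = 0 := by
    rw [hd1, hj₁, h6, Polynomial.natDegree_zero]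
  have h9 : v j₀ = 0 := by
    have h10 := Polynomial.eq_C_of_natDegree_le_zero (p := v j₀) (by rw [← h8]; exact hvd j₀)
    rw [h10, ← h8, h5 j₀, map_zero]
  apply hne
  simp only [v, if_pos hj₀] at h9
  exact (sub_eq_zero.1 h9).symm

/-- The exponents are polynomials of degree at most `k`, `k ≥ 1`, and the ranks of their coefficients of `t ^ k` are as large as
possible: for all sets `I` of variables and all at most `n` pairs of the exponent vectors `A e i` in the variables from `I`, the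
widths of the pairs of coefficient vectors with respect to an integral direction vanish only if the direction is constant on `I`,
provided that the widths of the pairs with respect to polynomial directions vanish only for directions constant on `I`. -/
def LeadingRanks {n s : ℕ} {ι : Type} (A : ι → Fin s → Fin (n + 1) → Polynomial ℤ) (k : ℕ) : Prop :=
  1 ≤ k ∧ (∀ e i j, (A e i j).natDegree ≤ k) ∧
    ∀ (I : Finset (Fin (n + 1))) (r : ℕ) (e : Fin r → ι) (p q : Fin r → Fin s), r ≤ n →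
      (∀ l, ∀ j ∉ I, A (e l) (p l) j = 0 ∧ A (e l) (q l) j = 0) →
      (∀ u : Fin (n + 1) → Polynomial ℤ, (∀ l, ∑ j, u j * (A (e l) (p l) j - A (e l) (q l) j) = 0) →
        ∀ i ∈ I, ∀ j ∈ I, u i = u j) →
      ∀ u : Fin (n + 1) → ℤ, (∀ l, ∑ j, u j * ((A (e l) (p l) j).coeff k - (A (e l) (q l) j).coeff k) = 0) →
        ∀ i ∈ I, ∀ j ∈ I, u i = u j

/-- **One parameter**, with the condition on the widths or that on the leading coefficients. -/
theorem wide_one' {n s : ℕ} {ι : Type} [Finite ι] {A : ι → Fin s → Fin (n + 1) → Polynomial ℤ}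
    (hdeg : ∀ e i i', ∑ j, A e i j = ∑ j, A e i' j) (hA : NoConstantWidths A ∨ ∃ k, LeadingRanks A k) (N : ℕ) :
    ∃ t₀ : ℕ, ∀ t : ℕ, t₀ ≤ t → WideT ∅ (fun e => expT fun i j => (A e i j).eval (t : ℤ)) N := by
  refine wide_one hdeg ?_ N
  rcases hA with h | ⟨k, h1, h2, h3⟩
  · exact h
  · exact noConst_of_leading k h1 h2 h3 hdeg

/-- **Several parameters**, with the condition on the widths or a common value of the exponent vectors. -/
theorem wide_several' {m n s : ℕ} {ι : Type} [Finite ι] {A : ι → Fin s → Fin (n + 1) → MvPolynomial (Fin m) ℤ}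
    (hdeg : ∀ e i i', ∑ j, A e i j = ∑ j, A e i' j)
    (hA : NoConstantWidthsR A ∨ ∃ t₀ : Fin m → ℤ, ∀ e i i' j, eval t₀ (A e i j) = eval t₀ (A e i' j)) (N : ℕ) :
    Sparse {t : Fin m → ℕ | ¬ WideT ∅ (fun e => expT fun i j => evn t (A e i j)) N} := by
  refine wide_several hdeg ?_ N
  rcases hA with h | ⟨t₀, h⟩
  · exact h
  · exact noConst_of_point (eval t₀) h

end Pool.Agent.J4.H93.WS
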