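import Pool.Agent.J4.H93.WS.WS8
import Pool.Agent.R869.WTop

/-!
Wide systems from integral matrices.
-/

set_option autoImplicit false

namespace Pool.Agent.J4.H93.WS

open MvPolynomial Pool.Agent.R869.Wd

theorem sys_of_wide {k : Type} [Field k] {n s N : ℕ} {ι : Type} {a : ι → Fin s → Fin (n + 1) → ℤ}
    (ha : ∀ e i i', ∑ j, a e i j = ∑ j, a e i' j) (hW : WideT ∅ (fun e => expT (a e)) N)
    (hN : (s + 1) * (n * Pool.Agent.R869.tri (s + 1 - 1)) < N) {F : ι → MvPolynomial (Fin (n + 1)) k}
    (hF : ∀ e, (F e).support ⊆ expT (a e)) : Sys ∅ F (s + 1) N where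
  form := fun e => form_expT (ha e) (hF e)
  pos := by omega
  card := fun e => (Finset.card_le_card (hF e)).trans ((card_expT _).trans (Nat.le_succ s))
  wide := wide_of_wideT hW hF
  num := hN

end Pool.Agent.J4.H93.WS
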