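import Pool.Agent.J4.H93.WS.WS9
import Pool.Agent.R869.WSix

/-!
Uniform bounds for wide systems from integral matrices.
-/

set_option autoImplicit false

namespace Pool.Agent.J4.H93.WS

open FF MvPolynomial Pool.Agent.R869.Wd Pool.Agent.W602.GT Pool.Agent.W603.LV Pool.Agent.W603.PV

theorem wideT_mono {n : ℕ} {ι : Type} {U : Set (Fin (n + 1))} {T : ι → Finset (Fin (n + 1) →₀ ℕ)} {N : ℕ}
    (hT : WideT ∅ T N) : WideT U T N :=
  fun I r e α β _ h2 h3 h4 u h5 _ => hT I r e α β (Set.empty_subset _) h2 h3 h4 u h5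
    fun i hi => absurd hi (Set.notMem_empty i)

theorem unif' {n : ℕ} {ι : Type} [Finite ι] (T : ι → Finset (Fin (n + 1) →₀ ℕ)) {s N : ℕ} (hs1 : 1 ≤ s)
    (hs : ∀ e, (T e).card ≤ s) (hW : WideT ∅ T N) (hN : cstC n s < N) :
    ∃ A : ℕ, ∀ (k : Type) [Field k] [IsAlgClosed k] [CharZero k] (F : ι → MvPolynomial (Fin (n + 1)) k),
      (∀ e, (F e).support ⊆ T e) → (∀ e, IsForm (F e)) → ∀ U : Set (Fin (n + 1)), HgtBound U F A := by
  classical
  have := Fintype.ofFinite ι
  obtain ⟨M, hM⟩ := exists_cstFor (Finset.univ.biUnion T)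
  refine ⟨M * (cstC n s * (1 + cstC n s)), ?_⟩
  intro k _ _ _ F hFT hF U K _ _ _ S f hf hno
  exact height_main (Finset.univ.biUnion T)
    (fun e => (hFT e).trans (Finset.subset_biUnion_of_mem T (Finset.mem_univ e))) hM hF hs1
    (fun e => (Finset.card_le_card (hFT e)).trans (hs e)) (wide_of_wideT (wideT_mono hW) hFT) hN S f hf.1
    hf.2.1 hf.2.2 hno

/-- The system of forms and the height bound, with one constant. -/
theorem sys_unif {n s N : ℕ} {ι : Type} [Finite ι] {a : ι → Fin s → Fin (n + 1) → ℤ}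
    (ha : ∀ e i i', ∑ j, a e i j = ∑ j, a e i' j) (hW : WideT ∅ (fun e => expT (a e)) N)
    (hN : (s + 1) * (n * Pool.Agent.R869.tri (s + 1 - 1)) < N) :
    ∃ A : ℕ, ∀ (k : Type) [Field k] [IsAlgClosed k] [CharZero k] (F : ι → MvPolynomial (Fin (n + 1)) k),
      (∀ e, (F e).support ⊆ expT (a e)) → ∀ U : Set (Fin (n + 1)), Sys U F (s + 1) N ∧ HgtBound U F A := by
  obtain ⟨A, hA⟩ := unif' (fun e => expT (a e)) (s := s + 1) (by omega)
    (fun e => (card_expT _).trans (Nat.le_succ s)) hW (cstC_lt (by omega) hN)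
  refine ⟨A, fun k _ _ _ F hF U => ⟨?_, hA k F hF (fun e => form_expT (ha e) (hF e)) U⟩⟩
  exact { form := fun e => form_expT (ha e) (hF e)
          pos := by omega
          card := fun e => (Finset.card_le_card (hF e)).trans ((card_expT _).trans (Nat.le_succ s))
          wide := wide_of_wideT (wideT_mono hW) hF
          num := hN }

end Pool.Agent.J4.H93.WS
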