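import Pool.Agent.J4.H93.WS.WS4
import Pool.Agent.J4.H93.WS.WS10
import Pool.Agent.Results.MP_70ba79_ag.AlmostAllMonomials

/-!
Degrees of maps from affine curves and log general type for wide systems and for typical tuples of monomials.
-/

set_option autoImplicit false

namespace Pool.Agent.J4.H93.WS.RL

open FF MvPolynomial Pool.Agent.W602.GT Pool.Agent.R869.Wd
open Pool.Agent.W603.LV (canDeg)
open Pool.Agent.W603.PV (pht)
open Pool.Agent.Y190.AH (MapX LinB EulB EachB GmB)
open Pool.Agent.Results.MP_70ba79_ag.AlmostAllMonomials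

/-- There is a constant `A` such that, over all algebraically closed fields of characteristic zero, for all sets `U` of variables:
`Equivalent A U F` for the open parts `X = {F = 0, x_j ≠ 0 for j in U}` of all projective varieties given by linear combinations
`F e` of the monomials with exponent vectors `a i` and of the `x_j ^ d`; `LooseCriterion A U F J` for the hypersurfaces given by
such a linear combination `F`; if any `m` of the coefficient vectors of the `m` forms are linearly independent and the `I i` are
well spread on all the sets of variables, the degrees of all morphisms from affine curves to `X` are at most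
`A max (2 g - 2 + s, 0)`, and all closed subvarieties of `X` of positive dimension are of log general type. -/
def LogCriteria {n s : ℕ} (I : Fin s → Finset (Fin (n + 1))) (d : ℕ) (a : Fin s → (Fin (n + 1) →₀ ℕ)) : Prop :=
  ∃ A : ℕ, ∀ (k : Type) [Field k] [IsAlgClosed k] [CharZero k] (U : Set (Fin (n + 1))),
    (∀ (m : ℕ) (F : Fin m → MvPolynomial (Fin (n + 1)) k), (∀ e, (F e).support ⊆ withPowers d a) →
      Equivalent A U F ∧ (GenCoeffs F (withPowers d a) → (∀ J : Finset (Fin (n + 1)), Spread I m J) →
        (∀ (L : Type) [Field L] [Algebra k L] [IsFF k L] (S : Finset (Place k L)) (f : Fin (n + 1) → L),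
          MapX U F S f → pht k f ≤ A * max (canDeg k L + S.card) 0) ∧
        ∀ (K : Type) [Field K] [Algebra k K] (w : ℕ) (y : Fin (n + 1) → K), 1 ≤ w →
          SubVarU U F K w y → LogGeneralType k K w (OffU U y))) ∧
    ∀ (F : MvPolynomial (Fin (n + 1)) k) (J : Finset (Fin (n + 1))), J.Nonempty →
      (∀ j ∈ U, j ∈ J) → F.support ⊆ withPowers d a → LooseCriterion A U F J

theorem criteria_of_typ {n s : ℕ} {I : Fin s → Finset (Fin (n + 1))} {d : ℕ} {a : Fin s → (Fin (n + 1) →₀ ℕ)}
    (hty : TypI I d a) : LogCriteria I d a := by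
  classical
  obtain ⟨s', N, hg⟩ := hty.good
  obtain ⟨A, hA⟩ := hg.unif
  exact ⟨A, fun k _ _ _ U => ⟨fun m F hFT => ⟨fun K _ _ w y hw hy hcomp =>
      log_tfaeA (hg.sys hFT U) (hA k (Fin m) F hFT U) hw hy hcomp, fun hgc hsp =>
        ⟨fun L _ _ _ S f hf => hA k (Fin m) F hFT U L S f hf
            (hty.no_parts hFT hgc (J := Finset.univ.filter fun j => f j ≠ 0) (fun j => by simp) (hsp _)),
          fun K _ _ w y hw hy => hty.lgt hFT hgc hw hy
            (J := Finset.univ.filter fun j => y j ≠ 0) (fun j => by simp) (hsp _)⟩⟩,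
    fun F J hJ hU hF =>
      hty.critLog hF (hA k (Fin 1) (fun _ => F) (fun _ => hF) U) hJ hU⟩⟩

/-- There is a constant `A` such that `Equivalent A U F` for all systems of polynomials `F e` whose exponent vectors are among the
rows of the matrices `a e`, over all algebraically closed fields of characteristic zero, and for all sets `U` of variables. -/
def LogUniform {n s : ℕ} {ι : Type} (a : ι → Fin s → Fin (n + 1) → ℤ) : Prop :=
  ∃ A : ℕ, ∀ (k : Type) [Field k] [IsAlgClosed k] [CharZero k] (U : Set (Fin (n + 1)))
    (F : ι → MvPolynomial (Fin (n + 1)) k),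
    (∀ e, ∀ α ∈ (F e).support, ∃ i, ∀ j, (α j : ℤ) = a e i j) → Equivalent A U F

theorem uniform_of_wide {n s N : ℕ} {ι : Type} [Finite ι] {a : ι → Fin s → Fin (n + 1) → ℤ}
    (ha : ∀ e i i', ∑ j, a e i j = ∑ j, a e i' j) (hW : WideT ∅ (fun e => expT (a e)) N)
    (hN : (s + 1) * (n * Pool.Agent.R869.tri (s + 1 - 1)) < N) : LogUniform a := by
  obtain ⟨A, hA⟩ := sys_unif ha hW hN
  refine ⟨A, fun k _ _ _ U F hF K _ _ w y hw hy hcomp => ?_⟩
  obtain ⟨h1, h2⟩ := hA k F (fun e α hα => mem_expT.2 (hF e α hα)) U
  exact log_tfaeA h1 h2 hw hy hcomp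

end Pool.Agent.J4.H93.WS.RL
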