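import Pool.Agent.J4.H93.WS.WS4
import Pool.Agent.J4.H93.WS.WS10
import Pool.Agent.Results.MP_5b1cbc_ag.AlmostAllMonomials

/-!
General type and pointed maps for wide systems and for typical tuples of monomials.
-/

set_option autoImplicit false

namespace Pool.Agent.J4.H93.WS.RP

open FF MvPolynomial Pool.Agent.W602.GT Pool.Agent.R869.Wd
open Pool.Agent.W602.RG (PseudoGeomHyp PointedMaps)
open Pool.Agent.Y216 (CurveBound OnVar)
open Pool.Agent.Y221.PB (PseudoBounded)
open Pool.Agent.Results.MP_5b1cbc_ag.AlmostAllMonomials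

/-- Over all algebraically closed fields of characteristic zero: `Equivalent F` for all projective varieties given by linear
combinations `F e` of the monomials with exponent vectors `a i` and of the `x_j ^ d`; if any `m` of the coefficient vectors of the
`m` forms are linearly independent, and the `I i` are well spread on all the sets of variables, then all closed subvarieties `V` of
positive dimension of `{F = 0}` are of general type, and there are only finitely many morphisms from each pointed curve to `V` with a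
given value at the marked point; `LooseCriterion F` for the hypersurfaces given by such a linear combination `F`. -/
def PointedCriteria {n s : ℕ} (I : Fin s → Finset (Fin (n + 1))) (d : ℕ) (a : Fin s → (Fin (n + 1) →₀ ℕ)) : Prop :=
  ∀ (k : Type) [Field k] [IsAlgClosed k] [CharZero k],
    (∀ (m : ℕ) (F : Fin m → MvPolynomial (Fin (n + 1)) k), (∀ e, (F e).support ⊆ withPowers d a) →
      Equivalent F ∧ (GenCoeffs F (withPowers d a) → (∀ J : Finset (Fin (n + 1)), Spread I m J) →
        ∀ (K : Type) [Field K] [Algebra k K] (w : ℕ) (y : Fin (n + 1) → K), 1 ≤ w → SubVar F K w y →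
          GeneralType k K w ∧
          ∀ (L : Type) [Field L] [Algebra k L] [IsFF k L] (c : Place k L), ∀ x ∈ VarPts k y,
            (PointedMaps y c x).Finite)) ∧
    ∀ F : MvPolynomial (Fin (n + 1)) k, F.support ⊆ withPowers d a → LooseCriterion F

theorem criteria_of_typ {n s : ℕ} {I : Fin s → Finset (Fin (n + 1))} {d : ℕ} {a : Fin s → (Fin (n + 1) →₀ ℕ)}
    (hty : TypI I d a) : PointedCriteria I d a := by
  classical
  intro k _ _ _
  obtain ⟨s', N, hg⟩ := hty.good
  obtain ⟨A, hA⟩ := hg.unif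
  refine ⟨fun m F hFT => ⟨fun K _ _ w y hw hy hcomp =>
      pgh_tfae (hg.sys hFT ∅) (hA k (Fin m) F hFT ∅) hw hy hcomp, fun hgc hsp K _ _ w y hw hy =>
      ⟨hty.all hFT hgc hsp K w y hw hy, fun L _ _ _ c x hx =>
      finite_of (hg.sys hFT ∅).form (hA k (Fin m) F hFT ∅) hy c hx fun L' _ _ f _ =>
        hty.no_parts hFT hgc (J := Finset.univ.filter fun j => f j ≠ 0) (fun j => by simp) (hsp _)⟩⟩,
    fun F hF =>
      ⟨fun J => ?_, (hty.loose_general hF).symm, fun K _ _ w y hy L _ _ _ c x hx hJ => ?_⟩⟩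
  · rw [hty.critSub hF (U := ∅) (J := J) fun j hj => absurd hj (Set.notMem_empty j)]
    constructor
    · rintro ⟨K, i1, i2, w, y, hw, hy, hyJ, hgt⟩
      exact ⟨K, i1, i2, w, y, hw, subVar_iff.1 hy, hyJ, fun h3 => hgt ((general_iff y).2 h3)⟩
    · rintro ⟨K, i1, i2, w, y, hw, hy, hyJ, hgt⟩
      exact ⟨K, i1, i2, w, y, hw, subVar_iff.2 hy, hyJ, fun h3 => hgt ((general_iff y).1 h3)⟩
  · refine finite_of (hg.sys (F := fun _ : Fin 1 => F) (fun _ => hF) ∅).form
      (hA k (Fin 1) (fun _ => F) (fun _ => hF) ∅) hy c hx fun L' _ _ f hf => ?_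
    rintro ⟨b, i, i', hi, hi', hb, hw⟩
    refine hJ (Finset.univ.filter fun j => f j ≠ 0) (fun j hj => Finset.mem_filter.2
      ⟨Finset.mem_univ _, hf j hj⟩) (hty.loose_of_orbit hF (x := f) (b := b)
      (fun j => by simp) ⟨i, by simpa using hi, i', by simpa using hi', hb⟩ fun v => hw 0 v)

theorem equivalent_of_wide {n s N : ℕ} {ι : Type} [Finite ι] {a : ι → Fin s → Fin (n + 1) → ℤ}
    (ha : ∀ e i i', ∑ j, a e i j = ∑ j, a e i' j) (hW : WideT ∅ (fun e => expT (a e)) N)
    (hN : (s + 1) * (n * Pool.Agent.R869.tri (s + 1 - 1)) < N) (k : Type) [Field k] [IsAlgClosed k] [CharZero k]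
    (F : ι → MvPolynomial (Fin (n + 1)) k) (hF : ∀ e, ∀ α ∈ (F e).support, ∃ i, ∀ j, (α j : ℤ) = a e i j) :
    Equivalent F := by
  obtain ⟨A, hA⟩ := sys_unif ha hW hN
  obtain ⟨h1, h2⟩ := hA k F (fun e α hα => mem_expT.2 (hF e α hα)) ∅
  intro K _ _ w y hw hy hcomp
  exact pgh_tfae h1 h2 hw hy hcomp

end Pool.Agent.J4.H93.WS.RP
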