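import Pool.Agent.J4.H93.WS.WS4
import Pool.Agent.Results.MP_45e720_ag.AlmostAllMonomials

/-!
Typical tuples of monomials: entire curves and complex tori.
-/

set_option autoImplicit false

namespace Pool.Agent.J4.H93.WS.RT

open MvPolynomial Pool.Agent.W602.GT Pool.Agent.R869.Wd Pool.Agent.H159R3.GGLLog
open Pool.Agent.Results.MP_45e720_ag.AlmostAllMonomials
open Pool.Agent.Y190.PH (Brody)
open Pool.Agent.TH182.TC (TorusRigid EllipticRigid)

/-- `ToriSuffice F` for all projective varieties given by linear combinations `F e` of the monomials with exponent vectors `a i`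
and of the `x_j ^ d`; if any `m` of the coefficient vectors of the `m` forms are linearly independent, all entire curves lie in
the union of the coordinate subspaces given by the sets `J` on which the `I i` are not well spread; `LooseCriterion F` for the
hypersurfaces given by such a linear combination `F`. -/
def ToriCriteria {n s : ℕ} (I : Fin s → Finset (Fin (n + 1))) (d : ℕ) (a : Fin s → (Fin (n + 1) →₀ ℕ)) : Prop :=
  (∀ (m : ℕ) (F : Fin m → MvPolynomial (Fin (n + 1)) ℂ), (∀ e, (F e).support ⊆ withPowers d a) → ToriSuffice F ∧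
    (GenCoeffs F (withPowers d a) → ∀ x ∈ SpH ∅ F, ∃ J : Finset (Fin (n + 1)),
      ¬ Spread I m J ∧ ∀ j, x j ≠ 0 → j ∈ J)) ∧
  ∀ F : MvPolynomial (Fin (n + 1)) ℂ, F.support ⊆ withPowers d a → LooseCriterion F

theorem criteria_of_typ {n s : ℕ} {I : Fin s → Finset (Fin (n + 1))} {d : ℕ} {a : Fin s → (Fin (n + 1) →₀ ℕ)}
    (hty : TypI I d a) : ToriCriteria I d a := by
  obtain ⟨A, hA⟩ := hty.bound
  obtain ⟨s', N, hg⟩ := hty.good
  have hts : ∀ (m : ℕ) (F : Fin m → MvPolynomial (Fin (n + 1)) ℂ),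
      (∀ e, (F e).support ⊆ withPowers d a) → ToriSuffice F := fun m F hFT =>
    toriSuffice_of (hg.sys hFT ∅) (hA ℂ m F ∅ hFT).1
  refine ⟨fun m F hFT => ⟨hts m F hFT, fun hgc x hx => ?_⟩, fun F hF => ⟨?_, fun J => ?_,
    fun x hx => ?_⟩⟩
  · obtain ⟨J, h1, -, h2⟩ := hty.special hFT hgc hx
    exact ⟨J, h1, h2⟩
  · have h1 : TorusRigid (fun _ : Fin 1 => F) ↔ Brody (fun _ : Fin 1 => F) :=
      (hts 1 _ fun _ => hF).2.out 0 2
    rw [h1, ← Pool.Agent.R869.Wd.brody_iff, hty.spH_empty hF]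
    exact ⟨fun h J => h J fun j hj => absurd hj (Set.notMem_empty j), fun h J _ => h J⟩
  · exact (hty.crit hF J).out 0 3
  · obtain ⟨J, h1, -, h2⟩ := hty.special1 hF hx
    exact ⟨J, h1, h2⟩

end Pool.Agent.J4.H93.WS.RT
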