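import Pool.Agent.R869.SSix

/-!
Typical tuples of monomials: all large degrees for compact sets of generic shapes; independent random exponents with arbitrary
laws without concentration.
-/

set_option autoImplicit false

namespace Pool.Agent.J4.H93.WS

open Finset Pool.Agent.R869.Wd

variable {n s : ℕ}

/-- Large determinants give typical tuples. -/
theorem typ_of_det {I : Fin s → Finset (Fin (n + 1))} (hI : ∀ i, (I i).Nonempty) {d : ℕ} (hd : 0 < d) {η : ℝ}
    (hη : n.factorial * (((s + (n + 1)) * (n * Pool.Agent.R869.tri (s + (n + 1) - 1)) + 1 : ℕ) : ℝ) ≤ η * d)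
    {a : Fin s → (Fin (n + 1) →₀ ℕ)} (ha : a ∈ TuplesIn I d) (hc : ∀ i, ∀ j ∈ I i, a i j ≠ 0)
    (hdet : ∀ p q : Fin n → Fin s ⊕ Fin (n + 1), (∃ z, Adm I z ∧ (dz p q z).det ≠ 0) →
      η < |(dz p q (sclI d a)).det|) : TypI I d a := by
  have hd' : (0 : ℝ) < d := by exact_mod_cast hd
  have hη0 : 0 < η := by
    by_contra hcon
    push Not at hcon
    have h1 : (0 : ℝ) < n.factorial * (((s + (n + 1)) * (n * Pool.Agent.R869.tri (s + (n + 1) - 1)) + 1 : ℕ) : ℝ) := by
      have := n.factorial_pos
      positivity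
    have h2 : η * d ≤ 0 := mul_nonpos_of_nonpos_of_nonneg hcon hd'.le
    linarith
  have hadm := adm_scl hd ha
  refine ⟨hI, ha, ⟨s + (n + 1), (s + (n + 1)) * (n * Pool.Agent.R869.tri (s + (n + 1) - 1)) + 1, ?_⟩, hd, hc,
    fun p q hpq h0 => ?_⟩
  · exact { deg := ⟨d, deg_withPowers fun i => (ha i).2⟩
            pos := by omega
            card := card_withPowers d a
            wide := wide_of_typicalI hd hη (fun i => (ha i).2) fun p q => by
              by_cases h0 : (dz p q (sclI d a)).det = 0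
              · exact Or.inl h0
              · exact Or.inr (hdet p q ⟨_, hadm, h0⟩)
            num := Nat.lt_succ_self _ }
  · have h1 := hdet p q hpq
    rw [h0, abs_zero] at h1
    exact absurd h1 (not_lt.2 hη0.le)

/-- Generic shapes: points `z_i` of the affine spans of the faces of the simplex given by the sets `I i`, with nonzero
coordinates in `I i`, such that `n` differences of points among the `z_i` and the vertices of the simplex are linearly
dependent only if they are linearly dependent for all such points. -/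
structure GenericShape (I : Fin s → Finset (Fin (n + 1))) (z : Fin s → Fin (n + 1) → ℝ) : Prop where
  adm : Adm I z
  pos : ∀ i, ∀ j ∈ I i, z i j ≠ 0
  gen : ∀ p q : Fin n → Fin s ⊕ Fin (n + 1), (∃ z', Adm I z' ∧ (dz p q z').det ≠ 0) → (dz p q z).det ≠ 0

theorem continuous_dz (p q : Fin n → Fin s ⊕ Fin (n + 1)) :
    Continuous fun z : Fin s → Fin (n + 1) → ℝ => (dz p q z).det := by
  apply Continuous.matrix_det
  apply continuous_matrix
  intro l j
  have h : ∀ p : Fin s ⊕ Fin (n + 1), Continuous fun z : Fin s → Fin (n + 1) → ℝ => vz z p j := by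
    rintro (i | l)
    · show Continuous fun z : Fin s → Fin (n + 1) → ℝ => z i j.castSucc
      exact (continuous_apply _).comp (continuous_apply _)
    · exact continuous_const
  exact (h _).sub (h _)

theorem isClosed_adm (I : Fin s → Finset (Fin (n + 1))) : IsClosed {z : Fin s → Fin (n + 1) → ℝ | Adm I z} := by
  have h : {z : Fin s → Fin (n + 1) → ℝ | Adm I z} =
      (⋂ i : Fin s, ⋂ j : Fin (n + 1), ⋂ _ : j ∉ I i, {z | z i j = 0}) ∩ ⋂ i : Fin s, {z | ∑ j, z i j = 1} := by
    ext z
    simp only [Adm, Set.mem_ofPred_eq, Set.mem_inter_iff, Set.mem_iInter]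
    exact forall_and
  rw [h]
  refine IsClosed.inter ?_ ?_
  · refine isClosed_iInter fun i => isClosed_iInter fun j => isClosed_iInter fun _ => ?_
    exact isClosed_eq ((continuous_apply _).comp (continuous_apply _)) continuous_const
  · refine isClosed_iInter fun i => ?_
    exact isClosed_eq (continuous_finsetSum _ fun j _ => (continuous_apply j).comp (continuous_apply i)) continuous_const

/-- **Compact sets of generic shapes.** -/
theorem typ_compact {I : Fin s → Finset (Fin (n + 1))} (hI : ∀ i, (I i).Nonempty)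
    (K : Set (Fin s → Fin (n + 1) → ℝ)) (hK : IsCompact K) (hg : ∀ z ∈ K, GenericShape I z) :
    ∃ δ : ℝ, 0 < δ ∧ ∃ d₀ : ℕ, ∀ d : ℕ, d₀ ≤ d → ∀ a ∈ TuplesIn I d,
      (∃ z ∈ K, ∀ i j, |(a i j : ℝ) - d * z i j| ≤ δ * d) → TypI I d a := by
  classical
  -- the open set
  obtain ⟨O, hO⟩ : ∃ O : Set (Fin s → Fin (n + 1) → ℝ), O = {z | (∀ i, ∀ j ∈ I i, z i j ≠ 0) ∧
      ∀ p q : Fin n → Fin s ⊕ Fin (n + 1), (∃ z', Adm I z' ∧ (dz p q z').det ≠ 0) → (dz p q z).det ≠ 0} := ⟨_, rfl⟩
  have hOo : IsOpen O := by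
    have h : O = (⋂ i : Fin s, ⋂ j : Fin (n + 1), {z | j ∈ I i → z i j ≠ 0}) ∩
        ⋂ p : Fin n → Fin s ⊕ Fin (n + 1), ⋂ q : Fin n → Fin s ⊕ Fin (n + 1),
          {z | (∃ z', Adm I z' ∧ (dz p q z').det ≠ 0) → (dz p q z).det ≠ 0} := by
      ext z
      simp only [hO, Set.mem_ofPred_eq, Set.mem_inter_iff, Set.mem_iInter]
    rw [h]
    refine IsOpen.inter ?_ ?_
    · refine isOpen_iInter_of_finite fun i => isOpen_iInter_of_finite fun j => ?_
      by_cases hj : j ∈ I i
      · have : {z : Fin s → Fin (n + 1) → ℝ | j ∈ I i → z i j ≠ 0} = {z | z i j ≠ 0} := by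
          ext z
          simp [hj]
        rw [this]
        exact isOpen_ne_fun ((continuous_apply _).comp (continuous_apply _)) continuous_const
      · have : {z : Fin s → Fin (n + 1) → ℝ | j ∈ I i → z i j ≠ 0} = Set.univ := by
          ext z
          simp [hj]
        rw [this]
        exact isOpen_univ
    · refine isOpen_iInter_of_finite fun p => isOpen_iInter_of_finite fun q => ?_
      by_cases hpq : ∃ z', Adm I z' ∧ (dz p q z').det ≠ 0
      · have : {z : Fin s → Fin (n + 1) → ℝ | (∃ z', Adm I z' ∧ (dz p q z').det ≠ 0) → (dz p q z).det ≠ 0} =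
            {z | (dz p q z).det ≠ 0} := by
          ext z
          simp [hpq]
        rw [this]
        exact isOpen_ne_fun (continuous_dz p q) continuous_const
      · have : {z : Fin s → Fin (n + 1) → ℝ | (∃ z', Adm I z' ∧ (dz p q z').det ≠ 0) → (dz p q z).det ≠ 0} =
            Set.univ := by
          ext z
          simp only [Set.mem_ofPred_eq, Set.mem_univ, iff_true]
          exact fun h => absurd h hpq
        rw [this]
        exact isOpen_univ
  have hKO : K ⊆ O := fun z hz => by
    rw [hO]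
    exact ⟨(hg z hz).pos, (hg z hz).gen⟩
  obtain ⟨δ, hδ, hsub⟩ := hK.exists_cthickening_subset_open hOo hKO
  have hKc : IsCompact (Metric.cthickening δ K) := hK.cthickening
  -- the lower bound
  have hη : ∃ η : ℝ, 0 < η ∧ ∀ z ∈ Metric.cthickening δ K, ∀ p q : Fin n → Fin s ⊕ Fin (n + 1),
      (∃ z', Adm I z' ∧ (dz p q z').det ≠ 0) → η < |(dz p q z).det| := by
    have h1 : ∀ pq : (Fin n → Fin s ⊕ Fin (n + 1)) × (Fin n → Fin s ⊕ Fin (n + 1)), ∃ η : ℝ, 0 < η ∧
        ∀ z ∈ Metric.cthickening δ K, (∃ z', Adm I z' ∧ (dz pq.1 pq.2 z').det ≠ 0) → η < |(dz pq.1 pq.2 z).det| := by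
      rintro ⟨p, q⟩
      by_cases hpq : ∃ z', Adm I z' ∧ (dz p q z').det ≠ 0
      · by_cases hne : (Metric.cthickening δ K).Nonempty
        · obtain ⟨z₀, hz₀, hmin⟩ := hKc.exists_isMinOn hne (continuous_dz p q).abs.continuousOn
          have h2 : 0 < |(dz p q z₀).det| := by
            have h3 := hsub hz₀
            rw [hO] at h3
            exact abs_pos.2 (h3.2 p q hpq)
          refine ⟨|(dz p q z₀).det| / 2, by positivity, fun z hz _ => ?_⟩
          have h3 : |(dz p q z₀).det| ≤ |(dz p q z).det| := hmin hz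
          show |(dz p q z₀).det| / 2 < |(dz p q z).det|
          linarith
        · exact ⟨1, one_pos, fun z hz => absurd ⟨z, hz⟩ hne⟩
      · exact ⟨1, one_pos, fun z _ h => absurd h hpq⟩
    choose η hη0 hη1 using h1
    obtain ⟨pq₀, -, h2⟩ := exists_min_image (univ : Finset ((Fin n → Fin s ⊕ Fin (n + 1)) ×
      (Fin n → Fin s ⊕ Fin (n + 1)))) η ⟨(fun _ => Sum.inr 0, fun _ => Sum.inr 0), mem_univ _⟩
    exact ⟨η pq₀, hη0 _, fun z hz p q hpq => (h2 (p, q) (mem_univ _)).trans_lt (hη1 (p, q) z hz hpq)⟩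
  obtain ⟨η, hη0, hη1⟩ := hη
  obtain ⟨N, hN⟩ : ∃ N : ℕ, N = (s + (n + 1)) * (n * Pool.Agent.R869.tri (s + (n + 1) - 1)) + 1 := ⟨_, rfl⟩
  refine ⟨δ, hδ, max 1 ⌈n.factorial * (N : ℝ) / η⌉₊, fun d hd a ha hz => ?_⟩
  have hd1 : 0 < d := lt_of_lt_of_le one_pos ((le_max_left _ _).trans hd)
  have hd' : (0 : ℝ) < d := by exact_mod_cast hd1
  have hd2 : n.factorial * (N : ℝ) ≤ η * d := by
    have h2 : n.factorial * (N : ℝ) / η ≤ d := (Nat.le_ceil _).trans (by exact_mod_cast (le_max_right _ _).trans hd)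
    rw [div_le_iff₀ hη0] at h2
    linarith
  obtain ⟨z, hzK, hz⟩ := hz
  have hmem : sclI d a ∈ Metric.cthickening δ K := by
    apply Metric.mem_cthickening_of_dist_le _ z δ K hzK
    rw [dist_pi_le_iff hδ.le]
    intro i
    rw [dist_pi_le_iff hδ.le]
    intro j
    rw [Real.dist_eq]
    have h1 := hz i j
    have h2 : sclI d a i j - z i j = ((a i j : ℝ) - d * z i j) / d := by
      unfold sclI
      field_simp
    rw [h2, abs_div, abs_of_pos hd', div_le_iff₀ hd']
    exact h1
  have hmO := hsub hmem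
  rw [hO] at hmO
  refine typ_of_det hI hd1 (η := η) (by rw [← hN]; exact hd2) ha (fun i j hj h0 => ?_) fun p q hpq =>
    hη1 _ hmem p q hpq
  apply hmO.1 i j hj
  unfold sclI
  rw [h0]
  simp

/-- Splitting a weighted sum. -/
theorem sum_cons {m : ℕ} {α : Type} [Fintype α] (G : (Fin (m + 1) → α) → ℝ) :
    ∑ x : Fin (m + 1) → α, G x = ∑ y : Fin m → α, ∑ t : α, G (Fin.cons t y) := by
  rw [← Fintype.sum_prod_type_right (f := fun z : α × (Fin m → α) => G (Fin.cons z.1 z.2))]
  exact (Fintype.sum_equiv (Fin.consEquiv fun _ => α) _ _ fun z => rfl).symm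

theorem sum_prod_one : ∀ (m : ℕ) {α : Type} [Fintype α] (w : Fin m → α → ℝ), (∀ c, ∑ t, w c t = 1) →
    ∑ x : Fin m → α, ∏ c, w c (x c) = 1 := by
  classical
  intro m α _ w hw
  rw [← Fintype.prod_sum]
  exact prod_eq_one fun c _ => hw c

open Classical in
/-- Functions that are affine in each variable are small with small probability. -/
theorem prob_fin : ∀ (m : ℕ) (f : (Fin m → ℝ) → ℝ), SepAff f → (∃ x, f x ≠ 0) → ∀ δ : ℝ, 0 < δ →
    ∃ η : ℝ, 0 < η ∧ ∀ (α : Type) [Fintype α] (v : α → ℝ) (w : Fin m → α → ℝ) (ε : ℝ),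
      (∀ c t, 0 ≤ w c t) → (∀ c, ∑ t, w c t = 1) →
      (∀ c (y : ℝ), ∑ t ∈ univ.filter (fun t => |v t - y| ≤ δ), w c t ≤ ε) →
      ∑ x ∈ univ.filter (fun x : Fin m → α => |f (fun j => v (x j))| ≤ η), ∏ c, w c (x c) ≤ m * ε
  | 0, f, _, ⟨x, hx⟩, δ, hδ => by
    refine ⟨|f x| / 2, by positivity, fun α _ v w ε _ _ _ => ?_⟩
    rw [filter_false_of_mem]
    · simp
    · intro y _
      rw [Subsingleton.elim (fun j => v (y j)) x, not_le]
      have := abs_pos.2 hx
      linarith
  | m + 1, f, hf, ⟨x, hx⟩, δ, hδ => by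
    obtain ⟨A, hA⟩ : ∃ A : (Fin m → ℝ) → ℝ, A = fun y => f (Fin.cons 0 y) := ⟨_, rfl⟩
    obtain ⟨B, hB⟩ : ∃ B : (Fin m → ℝ) → ℝ, B = fun y => f (Fin.cons 1 y) - f (Fin.cons 0 y) :=
      ⟨_, rfl⟩
    have hcons : ∀ (c : ℝ) (y : Fin m → ℝ) (j : Fin m) (t : ℝ),
        (Fin.cons c (Function.update y j t) : Fin (m + 1) → ℝ) =
          Function.update (Fin.cons c y : Fin (m + 1) → ℝ) j.succ t := fun c y j t =>
      Fin.cons_update (α := fun _ => ℝ) c y j t
    have hAa : SepAff A := by
      intro y j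
      obtain ⟨a, b, h⟩ := hf (Fin.cons 0 y) j.succ
      exact ⟨a, b, fun t => by rw [hA]; simp only; rw [hcons, h]⟩
    have hBa : SepAff B := by
      intro y j
      obtain ⟨a, b, h⟩ := hf (Fin.cons 0 y) j.succ
      obtain ⟨a', b', h'⟩ := hf (Fin.cons 1 y) j.succ
      exact ⟨a' - a, b' - b, fun t => by
        rw [hB]
        simp only
        rw [hcons, hcons, h, h']
        ring⟩
    have hAB : ∀ t y, f (Fin.cons t y) = A y + t * B y := by
      intro t y
      obtain ⟨a, b, h⟩ := hf (Fin.cons 0 y) 0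
      have h' : ∀ t : ℝ, f (Fin.cons t y) = a + t * b := by
        intro t
        rw [← h t, Fin.update_cons_zero]
      rw [hA, hB]
      simp only
      rw [h' t, h' 0, h' 1]
      ring
    have hx' : f x = A (Fin.tail x) + x 0 * B (Fin.tail x) := by
      rw [← hAB, Fin.cons_self_tail]
    have hcast : ∀ (α : Type) (v : α → ℝ) (t : α) (y : Fin m → α),
        (fun j => v ((Fin.cons t y : Fin (m + 1) → α) j)) =
          (Fin.cons (v t) (fun j => v (y j)) : Fin (m + 1) → ℝ) := by
      intro α v t y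
      funext j
      refine Fin.cases ?_ (fun j => ?_) j
      · rw [Fin.cons_zero, Fin.cons_zero]
      · rw [Fin.cons_succ, Fin.cons_succ]
    by_cases hB0 : ∃ y, B y ≠ 0
    · obtain ⟨ζ, hζ, h1⟩ := prob_fin m B hBa hB0 δ hδ
      refine ⟨ζ * δ, by positivity, fun α _ v w ε hw0 hw1 hε => ?_⟩
      have hε0 : 0 ≤ ε := (sum_nonneg fun t _ => hw0 0 t).trans (hε 0 0)
      have h2 := h1 α v (fun c => w c.succ) ε (fun c => hw0 _) (fun c => hw1 _) (fun c => hε _)
      rw [sum_filter, sum_cons]
      have h3 : ∀ y : Fin m → α, (∑ t : α, if |f (fun j => v ((Fin.cons t y : Fin (m + 1) → α) j))| ≤ ζ * δ then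
          ∏ c, w c ((Fin.cons t y : Fin (m + 1) → α) c) else 0) ≤
          (if |B (fun j => v (y j))| ≤ ζ then ∏ c, w (Fin.succ c) (y c) else 0) +
            ε * ∏ c, w (Fin.succ c) (y c) := by
        intro y
        have hW0 : 0 ≤ ∏ c, w (Fin.succ c) (y c) := prod_nonneg fun c _ => hw0 _ _
        have hprod : ∀ t : α, ∏ c, w c ((Fin.cons t y : Fin (m + 1) → α) c) =
            w 0 t * ∏ c, w (Fin.succ c) (y c) := by
          intro t
          rw [Fin.prod_univ_succ]
          simp
        by_cases hy : |B (fun j => v (y j))| ≤ ζ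
        · rw [if_pos hy]
          calc (∑ t : α, if |f (fun j => v ((Fin.cons t y : Fin (m + 1) → α) j))| ≤ ζ * δ then
                ∏ c, w c ((Fin.cons t y : Fin (m + 1) → α) c) else 0)
              ≤ ∑ t : α, w 0 t * ∏ c, w (Fin.succ c) (y c) := by
                refine sum_le_sum fun t _ => ?_
                split_ifs
                · exact (hprod t).le
                · exact mul_nonneg (hw0 _ _) hW0
            _ = ∏ c, w (Fin.succ c) (y c) := by rw [← sum_mul, hw1, one_mul]
            _ ≤ _ := le_add_of_nonneg_right (mul_nonneg hε0 hW0)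
        · rw [if_neg hy, zero_add]
          push Not at hy
          have hB1 : B (fun j => v (y j)) ≠ 0 := fun h => by
            rw [h, abs_zero] at hy
            exact absurd hy (not_lt.2 hζ.le)
          have h4 : (∑ t : α, if |f (fun j => v ((Fin.cons t y : Fin (m + 1) → α) j))| ≤ ζ * δ then
                ∏ c, w c ((Fin.cons t y : Fin (m + 1) → α) c) else 0) ≤
              ∑ t ∈ univ.filter (fun t => |v t - (- A (fun j => v (y j)) / B (fun j => v (y j)))| ≤ δ),
                w 0 t * ∏ c, w (Fin.succ c) (y c) := by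
            rw [sum_filter]
            refine sum_le_sum fun t _ => ?_
            by_cases ht : |f (fun j => v ((Fin.cons t y : Fin (m + 1) → α) j))| ≤ ζ * δ
            · rw [if_pos ht, if_pos, hprod]
              rw [hcast, hAB] at ht
              have h5 : v t - (- A (fun j => v (y j)) / B (fun j => v (y j))) =
                  (A (fun j => v (y j)) + v t * B (fun j => v (y j))) / B (fun j => v (y j)) := by
                field_simp
                ring
              rw [h5, abs_div, div_le_iff₀ (hζ.trans hy)]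
              refine ht.trans ?_
              rw [mul_comm]
              exact mul_le_mul_of_nonneg_left hy.le hδ.le
            · rw [if_neg ht]
              split_ifs
              · exact mul_nonneg (hw0 _ _) hW0
              · exact le_rfl
          refine h4.trans ?_
          rw [← sum_mul]
          exact mul_le_mul_of_nonneg_right (hε 0 _) hW0
      refine (sum_le_sum fun y _ => h3 y).trans ?_
      rw [sum_add_distrib, ← mul_sum, sum_prod_one m (fun c => w c.succ) fun c => hw1 _, mul_one, ← sum_filter]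
      push_cast
      linarith
    · push Not at hB0
      have hA0 : ∃ y, A y ≠ 0 := ⟨Fin.tail x, fun h => hx (by rw [hx', h, hB0, mul_zero, add_zero])⟩
      obtain ⟨η, hη, h1⟩ := prob_fin m A hAa hA0 δ hδ
      refine ⟨η, hη, fun α _ v w ε hw0 hw1 hε => ?_⟩
      have hε0 : 0 ≤ ε := (sum_nonneg fun t _ => hw0 0 t).trans (hε 0 0)
      have h2 := h1 α v (fun c => w c.succ) ε (fun c => hw0 _) (fun c => hw1 _) (fun c => hε _)
      rw [sum_filter, sum_cons]
      have h3 : ∀ y : Fin m → α, (∑ t : α, if |f (fun j => v ((Fin.cons t y : Fin (m + 1) → α) j))| ≤ η then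
          ∏ c, w c ((Fin.cons t y : Fin (m + 1) → α) c) else 0) =
          (if |A (fun j => v (y j))| ≤ η then ∏ c, w (Fin.succ c) (y c) else 0) := by
        intro y
        simp only [hcast, hAB, hB0, mul_zero, add_zero]
        split_ifs with h
        · have hprod : ∀ t : α, ∏ c, w c ((Fin.cons t y : Fin (m + 1) → α) c) =
              w 0 t * ∏ c, w (Fin.succ c) (y c) := by
            intro t
            rw [Fin.prod_univ_succ]
            simp
          simp only [hprod]
          rw [← sum_mul, hw1, one_mul]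
        · simp
      rw [sum_congr rfl fun y _ => h3 y, ← sum_filter]
      refine h2.trans ?_
      push_cast
      nlinarith

open Classical in
/-- The same for an arbitrary finite set of coordinates. -/
theorem prob_type {κ : Type} [Fintype κ] [DecidableEq κ] (f : (κ → ℝ) → ℝ) (hf : SepAff f) (hf0 : ∃ x, f x ≠ 0) {δ : ℝ} (hδ : 0 < δ) :
    ∃ η : ℝ, 0 < η ∧ ∀ (α : Type) [Fintype α] (v : α → ℝ) (w : κ → α → ℝ) (ε : ℝ),
      (∀ c t, 0 ≤ w c t) → (∀ c, ∑ t, w c t = 1) →
      (∀ c (y : ℝ), ∑ t ∈ univ.filter (fun t => |v t - y| ≤ δ), w c t ≤ ε) →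
      ∑ x ∈ univ.filter (fun x : κ → α => |f (fun j => v (x j))| ≤ η), ∏ c, w c (x c) ≤ Fintype.card κ * ε := by
  let e := Fintype.equivFin κ
  have hg : SepAff fun y : Fin (Fintype.card κ) → ℝ => f (fun j => y (e j)) := by
    intro y i
    obtain ⟨a, b, h⟩ := hf (fun j => y (e j)) (e.symm i)
    refine ⟨a, b, fun t => ?_⟩
    rw [← h t]
    refine congrArg f (funext fun j => ?_)
    by_cases hj : j = e.symm i
    · subst hj
      simp
    · rw [Function.update_of_ne hj, Function.update_of_ne]
      rintro rfl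
      exact hj (e.symm_apply_apply j).symm
  obtain ⟨x, hx⟩ := hf0
  obtain ⟨η, hη, h⟩ := prob_fin _ _ hg ⟨fun i => x (e.symm i), by simpa using hx⟩ δ hδ
  refine ⟨η, hη, fun α _ v w ε hw0 hw1 hε => le_trans (le_of_eq ?_)
    (h α v (fun i => w (e.symm i)) ε (fun c => hw0 _) (fun c => hw1 _) fun c => hε _)⟩
  refine sum_bij' (fun x _ => fun i => x (e.symm i)) (fun y _ => fun j => y (e j)) ?_ ?_ ?_ ?_ ?_
  · intro x hx
    rw [mem_filter] at hx ⊢
    refine ⟨mem_univ _, ?_⟩
    simpa using hx.2
  · intro y hy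
    rw [mem_filter] at hy ⊢
    exact ⟨mem_univ _, hy.2⟩
  · intro x _
    funext j
    simp
  · intro y _
    funext i
    simp
  · intro x _
    exact (Fintype.prod_equiv e _ _ fun j => by simp)

end Pool.Agent.J4.H93.WS
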