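import Mathlib

/-!
Sets of exponent vectors given by polynomials in a parameter are wide, for all large values of the parameter, if no polynomial
direction has constant widths.
-/

set_option autoImplicit false

namespace Pool.Agent.J4.H93.WS

open Polynomial Filter

/-- If the values of `D` divide those of `G` at infinitely many integers, then `D` divides a multiple of `G`. -/
theorem dvd_of_frequently {D G : ℤ[X]} (hD : D ≠ 0) (h : ∃ᶠ t : ℕ in atTop, D.eval (t : ℤ) ∣ G.eval (t : ℤ)) :
    ∃ (c : ℤ) (Q : ℤ[X]), c ≠ 0 ∧ C c * G = D * Q := by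
  let ψ := algebraMap ℤ ℚ
  have hψ : Function.Injective ψ := RingHom.injective_int ψ
  have hD' : D.map ψ ≠ 0 := (Polynomial.map_ne_zero_iff hψ).2 hD
  obtain ⟨b, hbm, hb⟩ := IsLocalization.integerNormalization_spec (nonZeroDivisors ℤ) (G.map ψ / D.map ψ)
  set Q := IsLocalization.integerNormalization (nonZeroDivisors ℤ) (G.map ψ / D.map ψ) with hQ
  have hb0 : b ≠ 0 := nonZeroDivisors.ne_zero hbm
  obtain ⟨c, hc⟩ : ∃ c : ℤ, c = b := ⟨_, rfl⟩
  rw [← hc] at hb hb0
  refine ⟨c, Q, hb0, ?_⟩
  obtain ⟨R, hR⟩ : ∃ R : ℤ[X], R = C c * G - D * Q := ⟨_, rfl⟩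
  have hb' : Q.map ψ = C (c : ℚ) * (G.map ψ / D.map ψ) := by
    rw [hb]
    ext i
    simp
  have hRmap : R.map ψ = C (c : ℚ) * (G.map ψ % D.map ψ) := by
    have h1 := EuclideanDomain.div_add_mod (G.map ψ) (D.map ψ)
    have h2 : R.map ψ = C (c : ℚ) * G.map ψ - D.map ψ * Q.map ψ := by
      rw [hR, Polynomial.map_sub, Polynomial.map_mul, Polynomial.map_mul, Polynomial.map_C]
      rfl
    rw [h2, hb']
    linear_combination (-C (c : ℚ)) * h1
  have hdeg : R.degree < D.degree := by
    have h1 : (R.map ψ).degree < (D.map ψ).degree := by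
      rw [hRmap]
      refine lt_of_le_of_lt (degree_mul_le _ _) ?_
      have h2 := EuclideanDomain.mod_lt (G.map ψ) hD'
      refine lt_of_le_of_lt ?_ h2
      have h3 : (C (c : ℚ)).degree ≤ 0 := degree_C_le
      calc (C (c : ℚ)).degree + (G.map ψ % D.map ψ).degree ≤ 0 + (G.map ψ % D.map ψ).degree := by gcongr
        _ = _ := zero_add _
    rwa [Polynomial.degree_map_eq_of_injective hψ, Polynomial.degree_map_eq_of_injective hψ] at h1
  -- the remainder is small
  have hsmall : ∀ᶠ t : ℕ in atTop, |R.eval (t : ℤ)| < |D.eval (t : ℤ)| := by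
    let φ := Int.castRingHom ℝ
    have hφ : Function.Injective φ := RingHom.injective_int φ
    have h1 : (R.map φ).degree < (D.map φ).degree := by
      rwa [Polynomial.degree_map_eq_of_injective hφ, Polynomial.degree_map_eq_of_injective hφ]
    have h2 := Polynomial.div_tendsto_atTop_zero_of_degree_lt (R.map φ) (D.map φ) h1
    have h3 := h2.comp (tendsto_natCast_atTop_atTop (R := ℝ))
    have h4 : ∀ᶠ t : ℕ in atTop, |(R.map φ).eval (t : ℝ) / (D.map φ).eval (t : ℝ)| < 1 := by
      have h5 := (Metric.tendsto_nhds.1 h3) 1 one_pos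
      filter_upwards [h5] with t ht
      rw [dist_zero_right] at ht
      exact ht
    have h5 : ∀ᶠ t : ℕ in atTop, (D.map φ).eval (t : ℝ) ≠ 0 := by
      have h6 : (D.map φ) ≠ 0 := (Polynomial.map_ne_zero_iff hφ).2 hD
      have h7 := Polynomial.eventually_atTop_not_isRoot (D.map φ) h6
      exact tendsto_natCast_atTop_atTop.eventually h7
    filter_upwards [h4, h5] with t ht ht'
    rw [abs_div, div_lt_one (abs_pos.2 ht')] at ht
    have e1 : ∀ P : ℤ[X], (P.map φ).eval (t : ℝ) = ((P.eval (t : ℤ) : ℤ) : ℝ) := by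
      intro P
      have h6 := Polynomial.eval_intCast_map φ P (t : ℤ)
      simp only [Int.cast_natCast] at h6
      exact h6
    rw [e1, e1] at ht
    exact_mod_cast ht
  have hroot : ∃ᶠ t : ℕ in atTop, R.eval (t : ℤ) = 0 := by
    refine (h.and_eventually hsmall).mono ?_
    rintro t ⟨h1, h2⟩
    have h3 : D.eval (t : ℤ) ∣ R.eval (t : ℤ) := by
      rw [hR, eval_sub, eval_mul, eval_mul, eval_C]
      exact dvd_sub (dvd_mul_of_dvd_right h1 _) (dvd_mul_right _ _)
    by_contra h4
    exact absurd h2 (not_lt.2 (Int.le_of_dvd (abs_pos.2 h4) ((abs_dvd_abs _ _).2 h3)))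
  have hR0 : R = 0 := by
    apply Polynomial.eq_zero_of_infinite_isRoot
    have h1 : {t : ℕ | R.eval (t : ℤ) = 0}.Infinite := Nat.frequently_atTop_iff_infinite.1 hroot
    refine (h1.image (f := fun t : ℕ => (t : ℤ)) Nat.cast_injective.injOn).mono ?_
    rintro _ ⟨t, ht, rfl⟩
    exact ht
  rw [hR0] at hR
  exact (sub_eq_zero.1 hR.symm)

theorem eval_ne_eventually {P : ℤ[X]} (hP : P ≠ 0) : ∀ᶠ t : ℕ in atTop, P.eval (t : ℤ) ≠ 0 := by
  let φ := Int.castRingHom ℝ
  have hφ : Function.Injective φ := RingHom.injective_int φ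
  have h6 : (P.map φ) ≠ 0 := (Polynomial.map_ne_zero_iff hφ).2 hP
  have h7 := Polynomial.eventually_atTop_not_isRoot (P.map φ) h6
  have h8 := (tendsto_natCast_atTop_atTop (R := ℝ)).eventually h7
  filter_upwards [h8] with t ht h0
  apply ht
  have h9 := Polynomial.eval_intCast_map φ P (t : ℤ)
  simp only [Int.cast_natCast] at h9
  rw [h0, map_zero] at h9
  exact h9

theorem eq_zero_of_frequently {P : ℤ[X]} (h : ∃ᶠ t : ℕ in atTop, P.eval (t : ℤ) = 0) : P = 0 := by
  by_contra hP
  exact h (eval_ne_eventually hP)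

/-- Directions of given widths. -/
theorem no_direction {n r : ℕ} {I : Finset (Fin (n + 1))} (hI : I.Nonempty) (M : Fin r → Fin (n + 1) → ℤ[X])
    (hsupp : ∀ l, ∀ j ∉ I, M l j = 0) (hsum : ∀ l, ∑ j, M l j = 0)
    (hconst : ∀ u : Fin (n + 1) → ℤ[X], (∀ l, ∃ c : ℤ, ∑ j, u j * M l j = C c) → ∀ i ∈ I, ∀ j ∈ I, u i = u j)
    (w : Fin r → ℤ) : ∀ᶠ t : ℕ in atTop, ¬ ∃ u : Fin (n + 1) → ℤ, (∃ i ∈ I, ∃ j ∈ I, u i ≠ u j) ∧
      ∀ l, ∑ j, u j * (M l j).eval (t : ℤ) = w l := by
  classical
  obtain ⟨i₀, hi₀⟩ := hI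
  let K := FractionRing ℤ[X]
  let φ : ℤ[X] →+* K := algebraMap ℤ[X] K
  have hφ : Function.Injective φ := IsFractionRing.injective ℤ[X] K
  let I' := {j : Fin (n + 1) // j ∈ I ∧ j ≠ i₀}
  let f : (I' → K) →ₗ[K] (Fin r → K) :=
    { toFun := fun u l => ∑ j : I', u j * φ (M l j)
      map_add' := by
        intro u v
        funext l
        simp only [Pi.add_apply, add_mul, Finset.sum_add_distrib]
      map_smul' := by
        intro c u
        funext l
        simp only [Pi.smul_apply, smul_eq_mul, RingHom.id_apply, mul_assoc]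
        exact (Finset.mul_sum _ _ _).symm }
  -- sums over all the coordinates
  have hsumI : ∀ {R : Type} [CommRing R] (g : Fin (n + 1) → R), (∀ j, j ∉ I → g j = 0) → g i₀ = 0 →
      ∑ j, g j = ∑ j : I', g j := by
    intro R _ g hg hg0
    have h1 : ∑ j : I', g j = ∑ j ∈ Finset.univ.filter (fun j => j ∈ I ∧ j ≠ i₀), g j := by
      rw [← Finset.sum_subtype_eq_sum_filter]
      simp only [Finset.subtype_univ]
      rfl
    rw [h1]
    symm
    apply Finset.sum_subset (Finset.filter_subset _ _)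
    intro j _ hj
    simp only [Finset.mem_filter, Finset.mem_univ, true_and, not_and, not_not] at hj
    by_cases h2 : j ∈ I
    · rw [hj h2]
      exact hg0
    · exact hg j h2
  have hinj : LinearMap.ker f = ⊥ := by
    rw [LinearMap.ker_eq_bot']
    intro u hu
    obtain ⟨D, hD⟩ := IsLocalization.exist_integer_multiples_of_finite (nonZeroDivisors ℤ[X]) u
    choose v hv using hD
    have hD0 : φ (D : ℤ[X]) ≠ 0 := by
      intro h0
      exact nonZeroDivisors.coe_ne_zero D (hφ (by rw [h0, map_zero]))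
    have hv' : ∀ j, φ (v j) = φ (D : ℤ[X]) * u j := fun j => by
      have h1 := hv j
      rw [Algebra.smul_def] at h1
      exact h1
    let v' : Fin (n + 1) → ℤ[X] := fun j => if h : j ∈ I ∧ j ≠ i₀ then v ⟨j, h⟩ else 0
    have hv'1 : ∀ j : I', v' j = v j := fun j => by
      simp only [v']
      rw [dif_pos j.2]
    have h1 := hconst v' (fun l => ⟨0, by
      rw [hsumI (fun j => v' j * M l j) (fun j hj => by rw [hsupp l j hj, mul_zero]) (by simp [v'])]
      apply hφ
      rw [map_sum, map_zero (C : ℤ →+* ℤ[X]), map_zero]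
      have h2 := congrFun hu l
      simp only [f, LinearMap.coe_mk, AddHom.coe_mk, Pi.zero_apply] at h2
      calc ∑ j : I', φ (v' j * M l j) = φ (D : ℤ[X]) * ∑ j : I', u j * φ (M l j) := by
            rw [Finset.mul_sum]
            refine Finset.sum_congr rfl fun j _ => ?_
            rw [map_mul, hv'1, hv']
            ring
        _ = 0 := by rw [h2, mul_zero]⟩)
    funext j
    have h2 := h1 j j.2.1 i₀ hi₀
    have h3 : v' i₀ = 0 := by simp [v']
    rw [hv'1, h3] at h2
    have h4 := hv' j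
    rw [h2, map_zero] at h4
    exact (mul_eq_zero.1 h4.symm).resolve_left hD0
  obtain ⟨g, hg⟩ := LinearMap.exists_leftInverse_of_injective f hinj
  -- the denominators
  obtain ⟨D, hD⟩ := IsLocalization.exist_integer_multiples_of_finite (nonZeroDivisors ℤ[X])
    (fun x : I' × Fin r => g (Pi.single x.2 1) x.1)
  choose P hP using hD
  have hD0 : (D : ℤ[X]) ≠ 0 := nonZeroDivisors.coe_ne_zero D
  have hP' : ∀ j l, φ (P (j, l)) = φ (D : ℤ[X]) * g (Pi.single l 1) j := fun j l => by
    have h1 := hP (j, l)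
    rw [Algebra.smul_def] at h1
    exact h1
  have hPM : ∀ j j' : I', ∑ l, P (j, l) * M l j' = if j = j' then (D : ℤ[X]) else 0 := by
    intro j j'
    apply hφ
    rw [map_sum]
    have h1 : g (f (Pi.single j' 1)) = Pi.single j' 1 := by
      have h2 := congrArg (fun L => L (Pi.single j' (1 : K))) hg
      simpa using h2
    have h2 : f (Pi.single j' 1) = ∑ l, φ (M l j') • (Pi.single l (1 : K) : Fin r → K) := by
      funext l
      simp only [f, LinearMap.coe_mk, AddHom.coe_mk, Finset.sum_apply, Pi.smul_apply, smul_eq_mul]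
      rw [Finset.sum_eq_single j', Finset.sum_eq_single l]
      · simp
      · intro l' _ hl'
        rw [Pi.single_eq_of_ne hl'.symm, mul_zero]
      · exact fun h => absurd (Finset.mem_univ _) h
      · intro j'' _ hj''
        rw [Pi.single_eq_of_ne hj'', zero_mul]
      · exact fun h => absurd (Finset.mem_univ _) h
    rw [h2, map_sum] at h1
    have h3 := congrFun h1 j
    rw [Finset.sum_apply] at h3
    calc ∑ l, φ (P (j, l) * M l j') = φ (D : ℤ[X]) * ∑ l, (g (φ (M l j') • (Pi.single l (1 : K) : Fin r → K))) j := by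
          rw [Finset.mul_sum]
          refine Finset.sum_congr rfl fun l _ => ?_
          rw [map_mul, hP', map_smul, Pi.smul_apply, smul_eq_mul]
          ring
      _ = φ (if j = j' then (D : ℤ[X]) else 0) := by
          rw [h3]
          by_cases h : j = j'
          · subst h
            simp
          · rw [Pi.single_eq_of_ne h, if_neg h, mul_zero, map_zero]
  -- the numerators
  let G : I' → ℤ[X] := fun j => ∑ l, P (j, l) * C (w l)
  by_contra hcon
  rw [Filter.not_eventually] at hcon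
  simp only [not_not] at hcon
  have hkey : ∀ (t : ℕ) (u : Fin (n + 1) → ℤ), (∀ l, ∑ j, u j * (M l j).eval (t : ℤ) = w l) →
      ∀ j : I', (G j).eval (t : ℤ) = (D : ℤ[X]).eval (t : ℤ) * (u j - u i₀) := by
    intro t u hu j
    have h1 : ∀ l, w l = ∑ j' : I', (u j' - u i₀) * (M l j').eval (t : ℤ) := by
      intro l
      rw [← hsumI (fun j => (u j - u i₀) * (M l j).eval (t : ℤ)) (fun j hj => by
        rw [hsupp l j hj, eval_zero, mul_zero]) (by ring), ← hu l]
      have h2 : ∑ j, (M l j).eval (t : ℤ) = 0 := by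
        rw [← eval_finsetSum, hsum, eval_zero]
      simp only [sub_mul, Finset.sum_sub_distrib, ← Finset.mul_sum]
      rw [h2, mul_zero, sub_zero]
    have h3 : (G j).eval (t : ℤ) = ∑ l, (P (j, l)).eval (t : ℤ) * w l := by
      simp only [G, eval_finsetSum, eval_mul, eval_C]
    rw [h3]
    calc ∑ l, (P (j, l)).eval (t : ℤ) * w l
        = ∑ l, ∑ j' : I', (P (j, l)).eval (t : ℤ) * ((u j' - u i₀) * (M l j').eval (t : ℤ)) := by
          refine Finset.sum_congr rfl fun l _ => ?_
          rw [h1 l, Finset.mul_sum]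
      _ = ∑ j' : I', (u j' - u i₀) * (∑ l, P (j, l) * M l j').eval (t : ℤ) := by
          rw [Finset.sum_comm]
          refine Finset.sum_congr rfl fun j' _ => ?_
          rw [eval_finsetSum, Finset.mul_sum]
          refine Finset.sum_congr rfl fun l _ => ?_
          rw [eval_mul]
          ring
      _ = _ := by
          rw [Finset.sum_eq_single j]
          · rw [hPM, if_pos rfl]
            ring
          · intro j' _ hj'
            rw [hPM, if_neg hj'.symm, eval_zero, mul_zero]
          · exact fun h => absurd (Finset.mem_univ _) h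
  have hdvd : ∀ j : I', ∃ (c : ℤ) (Q : ℤ[X]), c ≠ 0 ∧ C c * G j = (D : ℤ[X]) * Q := by
    intro j
    apply dvd_of_frequently hD0
    refine hcon.mono ?_
    rintro t ⟨u, -, hu⟩
    rw [hkey t u hu j]
    exact dvd_mul_right _ _
  choose c Q hc hQ using hdvd
  obtain ⟨c', hc'⟩ : ∃ c' : ℤ, c' = ∏ j, c j := ⟨_, rfl⟩
  have hc'0 : c' ≠ 0 := by
    rw [hc']
    exact Finset.prod_ne_zero_iff.2 fun j _ => hc j
  let v : Fin (n + 1) → ℤ[X] := fun j => if h : j ∈ I ∧ j ≠ i₀ then
    C (∏ j' ∈ Finset.univ.erase (⟨j, h⟩ : I'), c j') * Q ⟨j, h⟩ else 0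
  have hv : ∀ j : I', v j = C (∏ j' ∈ Finset.univ.erase j, c j') * Q j := fun j => by
    simp only [v]
    rw [dif_pos j.2]
  have hv0 : v i₀ = 0 := by simp [v]
  have hvG : ∀ j : I', C c' * G j = (D : ℤ[X]) * v j := by
    intro j
    rw [hv, hc', ← Finset.mul_prod_erase Finset.univ c (Finset.mem_univ j), C_mul]
    linear_combination (C (∏ j' ∈ Finset.univ.erase j, c j')) * hQ j
  have hvu : ∀ (t : ℕ) (u : Fin (n + 1) → ℤ), (∀ l, ∑ j, u j * (M l j).eval (t : ℤ) = w l) →
      (D : ℤ[X]).eval (t : ℤ) ≠ 0 → ∀ j : I', (v j).eval (t : ℤ) = c' * (u j - u i₀) := by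
    intro t u hu ht j
    have h1 := congrArg (eval (t : ℤ)) (hvG j)
    rw [eval_mul, eval_mul, eval_C, hkey t u hu j] at h1
    apply mul_left_cancel₀ ht
    linear_combination -h1
  have hDev := eval_ne_eventually hD0
  have hconst' : ∀ l, ∃ c : ℤ, ∑ j, v j * M l j = C c := by
    intro l
    refine ⟨c' * w l, sub_eq_zero.1 (eq_zero_of_frequently ?_)⟩
    refine (hcon.and_eventually hDev).mono ?_
    rintro t ⟨⟨u, -, hu⟩, ht⟩
    rw [eval_sub, eval_finsetSum, eval_C]
    simp only [eval_mul]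
    rw [hsumI (fun j => (v j).eval (t : ℤ) * (M l j).eval (t : ℤ)) (fun j hj => by
      rw [hsupp l j hj, eval_zero, mul_zero]) (by rw [hv0, eval_zero, zero_mul])]
    have h1 : ∑ j : I', (v j).eval (t : ℤ) * (M l j).eval (t : ℤ) =
        c' * ∑ j : I', (u j - u i₀) * (M l j).eval (t : ℤ) := by
      rw [Finset.mul_sum]
      refine Finset.sum_congr rfl fun j _ => ?_
      rw [hvu t u hu ht j]
      ring
    rw [h1, ← hsumI (fun j => (u j - u i₀) * (M l j).eval (t : ℤ)) (fun j hj => by
        rw [hsupp l j hj, eval_zero, mul_zero]) (by ring)]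
    have h2 : ∑ j, (M l j).eval (t : ℤ) = 0 := by
      rw [← eval_finsetSum, hsum, eval_zero]
    have h3 : ∑ j, (u j - u i₀) * (M l j).eval (t : ℤ) = w l := by
      rw [← hu l]
      simp only [sub_mul, Finset.sum_sub_distrib, ← Finset.mul_sum]
      rw [h2, mul_zero, sub_zero]
    rw [h3, sub_self]
  have hvc := hconst v hconst'
  obtain ⟨t, ⟨⟨u, ⟨i, hi, j, hj, hij⟩, hu⟩, ht⟩⟩ := (hcon.and_eventually hDev).exists
  have hu0 : ∀ j ∈ I, u j = u i₀ := by
    intro j hj
    by_cases h : j = i₀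
    · rw [h]
    · have h1 := hvu t u hu ht ⟨j, hj, h⟩
      have h2 : v j = 0 := by rw [hvc j hj i₀ hi₀, hv0]
      rw [h2, eval_zero] at h1
      have h3 := (mul_eq_zero.1 h1.symm).resolve_left hc'0
      exact sub_eq_zero.1 h3
  exact hij ((hu0 i hi).trans (hu0 j hj).symm)

end Pool.Agent.J4.H93.WS
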