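import Pool.Agent.J4.H93.WS.WS2
import Pool.Agent.R869.WHgt

/-!
Sets of exponent vectors given by polynomials in a parameter are wide, for all large values of the parameter, if no polynomial
direction has constant widths.
-/

set_option autoImplicit false

namespace Pool.Agent.J4.H93.WS

open Polynomial Filter Pool.Agent.R869.Wd

/-- No polynomial direction has constant widths: consider a set `I` of variables and at most `n` pairs of the exponent vectors
`A e i`, polynomials in the parameter, the two vectors of a pair with the same `e`, such that only the variables from `I` occur.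
If all directions `u`, polynomials in the parameter, for which the widths `∑ u_j (A e p j - A e q j)` of all the pairs vanish are
constant on `I`, then all directions `u` for which the widths of all the pairs are constant polynomials are constant on `I`. -/
def NoConstantWidths {n s : ℕ} {ι : Type} (A : ι → Fin s → Fin (n + 1) → ℤ[X]) : Prop :=
  ∀ (I : Finset (Fin (n + 1))) (r : ℕ) (e : Fin r → ι) (p q : Fin r → Fin s), r ≤ n →
    (∀ l, ∀ j ∉ I, A (e l) (p l) j = 0 ∧ A (e l) (q l) j = 0) →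
    (∀ u : Fin (n + 1) → ℤ[X], (∀ l, ∑ j, u j * (A (e l) (p l) j - A (e l) (q l) j) = 0) →
      ∀ i ∈ I, ∀ j ∈ I, u i = u j) →
    ∀ u : Fin (n + 1) → ℤ[X], (∀ l, ∃ c : ℤ, ∑ j, u j * (A (e l) (p l) j - A (e l) (q l) j) = C c) →
      ∀ i ∈ I, ∀ j ∈ I, u i = u j

theorem wide_poly {n s : ℕ} {ι : Type} [Finite ι] {A : ι → Fin s → Fin (n + 1) → ℤ[X]}
    (hdeg : ∀ e i i', ∑ j, A e i j = ∑ j, A e i' j) (hA : NoConstantWidths A) (N : ℕ) :
    ∀ᶠ t : ℕ in atTop, ∀ T : ι → Finset (Fin (n + 1) →₀ ℕ),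
      (∀ e, ∀ α ∈ T e, ∃ i, ∀ j, (α j : ℤ) = (A e i j).eval (t : ℤ)) → WideT ∅ T N := by
  classical
  have h1 : ∀ᶠ t : ℕ in atTop, ∀ e i j, A e i j ≠ 0 → (A e i j).eval (t : ℤ) ≠ 0 := by
    rw [eventually_all]
    intro e
    rw [eventually_all]
    intro i
    rw [eventually_all]
    intro j
    by_cases h : A e i j = 0
    · exact Eventually.of_forall fun t h' => absurd h h'
    · filter_upwards [eval_ne_eventually h] with t ht _
      exact ht
  have h2 : ∀ᶠ t : ℕ in atTop, ∀ (I : Finset (Fin (n + 1))) (r : Fin (n + 1)) (e : Fin r → ι) (p q : Fin r → Fin s),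
      (¬ ∀ u : Fin (n + 1) → ℤ[X], (∀ l, ∑ j, u j * (A (e l) (p l) j - A (e l) (q l) j) = 0) →
        ∀ i ∈ I, ∀ j ∈ I, u i = u j) →
      ∃ u : Fin (n + 1) → ℤ, (∃ i ∈ I, ∃ j ∈ I, u i ≠ u j) ∧
        ∀ l, ∑ j, u j * ((A (e l) (p l) j).eval (t : ℤ) - (A (e l) (q l) j).eval (t : ℤ)) = 0 := by
    rw [eventually_all]
    intro I
    rw [eventually_all]
    intro r
    rw [eventually_all]
    intro e
    rw [eventually_all]
    intro p
    rw [eventually_all]
    intro q
    by_cases h : ∀ u : Fin (n + 1) → ℤ[X], (∀ l, ∑ j, u j * (A (e l) (p l) j - A (e l) (q l) j) = 0) →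
        ∀ i ∈ I, ∀ j ∈ I, u i = u j
    · exact Eventually.of_forall fun t h' => absurd h h'
    · have h' := h
      push Not at h'
      obtain ⟨u, hu, i, hi, j, hj, hij⟩ := h'
      filter_upwards [eval_ne_eventually (sub_ne_zero.2 hij)] with t ht _
      refine ⟨fun j => (u j).eval (t : ℤ), ⟨i, hi, j, hj, fun h0 => ht ?_⟩, fun l => ?_⟩
      · rw [eval_sub]
        exact sub_eq_zero.2 h0
      · have h3 := congrArg (eval (t : ℤ)) (hu l)
        rw [eval_finsetSum, eval_zero] at h3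
        rw [← h3]
        refine Finset.sum_congr rfl fun j _ => ?_
        rw [eval_mul, eval_sub]
  have h3 : ∀ᶠ t : ℕ in atTop, ∀ (I : Finset (Fin (n + 1))) (r : Fin (n + 1)) (e : Fin r → ι) (p q : Fin r → Fin s)
      (w : Fin r → Fin (2 * N + 1)),
      (∀ l, ∀ j ∉ I, A (e l) (p l) j = 0 ∧ A (e l) (q l) j = 0) →
      (∀ u : Fin (n + 1) → ℤ[X], (∀ l, ∑ j, u j * (A (e l) (p l) j - A (e l) (q l) j) = 0) →
        ∀ i ∈ I, ∀ j ∈ I, u i = u j) →
      ¬ ∃ u : Fin (n + 1) → ℤ, (∃ i ∈ I, ∃ j ∈ I, u i ≠ u j) ∧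
        ∀ l, ∑ j, u j * ((A (e l) (p l) j).eval (t : ℤ) - (A (e l) (q l) j).eval (t : ℤ)) = ((w l : ℕ) : ℤ) - N := by
    rw [eventually_all]
    intro I
    rw [eventually_all]
    intro r
    rw [eventually_all]
    intro e
    rw [eventually_all]
    intro p
    rw [eventually_all]
    intro q
    rw [eventually_all]
    intro w
    by_cases hs : ∀ l, ∀ j ∉ I, A (e l) (p l) j = 0 ∧ A (e l) (q l) j = 0
    swap
    · exact Eventually.of_forall fun t h' => absurd h' hs
    by_cases hr : ∀ u : Fin (n + 1) → ℤ[X], (∀ l, ∑ j, u j * (A (e l) (p l) j - A (e l) (q l) j) = 0) →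
        ∀ i ∈ I, ∀ j ∈ I, u i = u j
    swap
    · exact Eventually.of_forall fun t _ h' => absurd h' hr
    by_cases hI : I.Nonempty
    swap
    · refine Eventually.of_forall fun t _ _ => ?_
      rintro ⟨u, ⟨i, hi, -⟩, -⟩
      exact hI ⟨i, hi⟩
    have h4 := no_direction hI (fun l j => A (e l) (p l) j - A (e l) (q l) j)
      (fun l j hj => by rw [(hs l j hj).1, (hs l j hj).2, sub_zero])
      (fun l => by rw [Finset.sum_sub_distrib, hdeg (e l) (p l) (q l), sub_self])
      (hA I r e p q (Nat.le_of_lt_succ r.2) hs hr) (fun l => ((w l : ℕ) : ℤ) - N)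
    filter_upwards [h4] with t ht _ _
    simpa only [eval_sub] using ht
  filter_upwards [h1, h2, h3] with t ht1 ht2 ht3 T hT
  intro I r e α β _ hr hmem hpos u hu _
  choose p hp using fun l => hT (e l) (α l) (hmem l).1
  choose q hq using fun l => hT (e l) (β l) (hmem l).2.1
  let J : Finset (Fin (n + 1)) := Finset.univ.filter fun j => j ∈ I
  have hJ : ∀ j, j ∈ J ↔ j ∈ I := fun j => by simp [J]
  have hw : ∀ (u : Fin (n + 1) → ℤ) (l : Fin r), wgt u (α l) - wgt u (β l) =
      ∑ j, u j * ((A (e l) (p l) j).eval (t : ℤ) - (A (e l) (q l) j).eval (t : ℤ)) := by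
    intro u l
    unfold wgt
    rw [← Finset.sum_sub_distrib]
    refine Finset.sum_congr rfl fun j _ => ?_
    rw [← hp l j, ← hq l j]
    ring
  have hs : ∀ l, ∀ j ∉ J, A (e l) (p l) j = 0 ∧ A (e l) (q l) j = 0 := by
    intro l j hj
    have h4 := (hmem l).2.2 j (fun h => hj ((hJ j).2 h))
    constructor
    · by_contra h5
      apply ht1 _ _ _ h5
      rw [← hp l j, h4.1]
      rfl
    · by_contra h5
      apply ht1 _ _ _ h5
      rw [← hq l j, h4.2]
      rfl
  have hr' : ∀ u : Fin (n + 1) → ℤ[X], (∀ l, ∑ j, u j * (A (e l) (p l) j - A (e l) (q l) j) = 0) →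
      ∀ i ∈ J, ∀ j ∈ J, u i = u j := by
    by_contra hcon
    obtain ⟨u', ⟨i, hi, j, hj, hij⟩, hu'⟩ := ht2 J ⟨r, Nat.lt_succ_of_le hr⟩ e p q hcon
    have h4 := hpos u' ⟨i, (hJ i).1 hi, j, (hJ j).1 hj, hij⟩
    rw [Finset.sum_eq_zero fun l _ => by rw [hw, hu', abs_zero]] at h4
    exact lt_irrefl _ h4
  by_contra hcon
  push Not at hcon
  have hlt : ∀ l, |wgt u (α l) - wgt u (β l)| < N := fun l =>
    (Finset.single_le_sum (f := fun l => |wgt u (α l) - wgt u (β l)|) (fun _ _ => abs_nonneg _)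
      (Finset.mem_univ l)).trans_lt hcon
  obtain ⟨i, hi, j, hj, hij⟩ := hu
  refine ht3 J ⟨r, Nat.lt_succ_of_le hr⟩ e p q
    (fun l => ⟨(wgt u (α l) - wgt u (β l) + N).toNat, ?_⟩) hs hr'
    ⟨u, ⟨i, (hJ i).2 hi, j, (hJ j).2 hj, hij⟩, fun l => ?_⟩
  · have h4 := abs_lt.1 (hlt l)
    omega
  · rw [← hw]
    have h4 := abs_lt.1 (hlt l)
    push_cast
    omega

end Pool.Agent.J4.H93.WS
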