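import Pool.Agent.J4.H93.WS.WS1

/-!
Independent random exponents with arbitrary laws without concentration.
-/

set_option autoImplicit false

namespace Pool.Agent.J4.H93.WS

open Finset Pool.Agent.R869.Wd

variable {n s : ℕ}

open Classical in
/-- The tuple of exponent vectors of degree `d` with given free coordinates: `x (i, j)` is the exponent of the variable `j` of
`I i`, `j ≠ piv i`, in the `i`-th monomial; the exponent of the variable `piv i` is determined by the degree `d`. -/
noncomputable def tup (I : Fin s → Finset (Fin (n + 1))) (piv : Fin s → Fin (n + 1)) (d : ℕ) (x : Free I piv → ℕ) :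
    Fin s → (Fin (n + 1) →₀ ℕ) := fun i => Finsupp.equivFunOnFinite.symm fun j =>
  if h : j ∈ I i ∧ j ≠ piv i then x ⟨(i, j), h⟩ else
    if j = piv i then d - ∑ c ∈ univ.filter (fun c : Free I piv => c.1.1 = i), x c else 0

theorem tup_free {I : Fin s → Finset (Fin (n + 1))} {piv : Fin s → Fin (n + 1)} {d : ℕ} (x : Free I piv → ℕ)
    (c : Free I piv) : tup I piv d x c.1.1 c.1.2 = x c := by
  unfold tup
  rw [Finsupp.equivFunOnFinite_symm_apply_apply, dif_pos c.2]

theorem sum_free {I : Fin s → Finset (Fin (n + 1))} {piv : Fin s → Fin (n + 1)} (x : Free I piv → ℕ) (i : Fin s) :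
    ∑ c ∈ univ.filter (fun c : Free I piv => c.1.1 = i), x c =
      ∑ j, if h : j ∈ I i ∧ j ≠ piv i then x ⟨(i, j), h⟩ else 0 := by
  classical
  rw [sum_dite, sum_const_zero, add_zero]
  refine sum_bij' (fun c hc => ⟨c.1.2, by
      rw [mem_filter] at hc ⊢
      refine ⟨mem_univ _, ?_⟩
      rw [← hc.2]
      exact c.2⟩)
    (fun j _ => ⟨(i, j.1), (mem_filter.1 j.2).2⟩) ?_ ?_ ?_ ?_ ?_
  · intro c _
    exact mem_attach _ _
  · intro j _
    rw [mem_filter]
    exact ⟨mem_univ _, rfl⟩
  · intro c hc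
    rw [mem_filter] at hc
    apply Subtype.ext
    exact Prod.ext hc.2.symm rfl
  · intro j _
    rfl
  · intro c hc
    rw [mem_filter] at hc
    congr 1
    apply Subtype.ext
    exact Prod.ext hc.2 rfl

theorem tup_mem {I : Fin s → Finset (Fin (n + 1))} {piv : Fin s → Fin (n + 1)} (hpiv : ∀ i, piv i ∈ I i) {d : ℕ}
    {x : Free I piv → ℕ} (hx : ∀ c, n * x c ≤ d) : tup I piv d x ∈ TuplesIn I d := by
  classical
  intro i
  constructor
  · intro j hj
    by_contra hcon
    apply (Finsupp.mem_support_iff.1 hj)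
    unfold tup
    rw [Finsupp.equivFunOnFinite_symm_apply_apply, dif_neg fun h => hcon h.1, if_neg]
    rintro rfl
    exact hcon (hpiv i)
  · have hle : ∑ c ∈ univ.filter (fun c : Free I piv => c.1.1 = i), x c ≤ d := by
      rcases Nat.eq_zero_or_pos n with hn | hn
      · subst hn
        rw [sum_eq_zero]
        · exact Nat.zero_le _
        · intro c _
          exact absurd (Subsingleton.elim (α := Fin 1) _ _) c.2.2
      · have h1 : (univ.filter (fun c : Free I piv => c.1.1 = i)).card ≤ n := by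
          have h2 : (univ.filter (fun c : Free I piv => c.1.1 = i)).card ≤ (univ.erase (piv i)).card := by
            apply card_le_card_of_injOn (fun c => c.1.2)
            · intro c hc
              rw [mem_coe, mem_filter] at hc
              rw [mem_coe, mem_erase]
              refine ⟨?_, mem_univ _⟩
              rw [← hc.2]
              exact c.2.2
            · intro c hc c' hc' hcc
              rw [mem_coe, mem_filter] at hc hc'
              apply Subtype.ext
              exact Prod.ext (hc.2.trans hc'.2.symm) hcc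
          rw [card_erase_of_mem (mem_univ _), card_univ, Fintype.card_fin] at h2
          exact h2
        have h2 : n * ∑ c ∈ univ.filter (fun c : Free I piv => c.1.1 = i), x c ≤ n * d := by
          rw [mul_sum]
          calc ∑ c ∈ univ.filter (fun c : Free I piv => c.1.1 = i), n * x c
              ≤ ∑ c ∈ univ.filter (fun c : Free I piv => c.1.1 = i), d := sum_le_sum fun c _ => hx c
            _ = (univ.filter (fun c : Free I piv => c.1.1 = i)).card * d := by rw [sum_const, smul_eq_mul]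
            _ ≤ n * d := Nat.mul_le_mul_right _ h1
        exact Nat.le_of_mul_le_mul_left h2 hn
    have h1 : ∀ j, tup I piv d x i j = (if h : j ∈ I i ∧ j ≠ piv i then x ⟨(i, j), h⟩ else 0) +
        if j = piv i then d - ∑ c ∈ univ.filter (fun c : Free I piv => c.1.1 = i), x c else 0 := by
      intro j
      unfold tup
      rw [Finsupp.equivFunOnFinite_symm_apply_apply]
      by_cases h : j ∈ I i ∧ j ≠ piv i
      · rw [dif_pos h, dif_pos h, if_neg h.2, add_zero]
      · rw [dif_neg h, dif_neg h, zero_add]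
    rw [sum_congr rfl fun j _ => h1 j, sum_add_distrib, ← sum_free, sum_ite_eq' univ (piv i), if_pos (mem_univ _)]
    omega

open Classical in
/-- **Independent random exponents.** -/
theorem prob_typ (I : Fin s → Finset (Fin (n + 1))) (piv : Fin s → Fin (n + 1)) (hpiv : ∀ i, piv i ∈ I i) :
    ∃ C : ℝ, ∀ δ : ℝ, 0 < δ → ∃ d₀ : ℕ, ∀ d : ℕ, d₀ ≤ d → ∀ (w : Free I piv → Fin (d + 1) → ℝ) (ε : ℝ),
      (∀ c t, 0 ≤ w c t) → (∀ c, ∑ t, w c t = 1) → (∀ c t, w c t ≠ 0 → n * (t : ℕ) ≤ d) →
      (∀ c (y : ℝ), ∑ t ∈ univ.filter (fun t : Fin (d + 1) => |((t : ℕ) : ℝ) - y| ≤ δ * d), w c t ≤ ε) →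
      ∑ x ∈ univ.filter (fun x : Free I piv → Fin (d + 1) => ¬ TypI I d (tup I piv d fun c => x c)),
        ∏ c, w c (x c) ≤ C * ε := by
  have hI : ∀ i, (I i).Nonempty := fun i => ⟨piv i, hpiv i⟩
  let Θ := ((Fin n → Fin s ⊕ Fin (n + 1)) × (Fin n → Fin s ⊕ Fin (n + 1))) ⊕ (Fin s × Fin (n + 1))
  let f : Θ → (Free I piv → ℝ) → ℝ :=
    Sum.elim (fun pq x => (dz pq.1 pq.2 (prm I piv x)).det) fun ij x => prm I piv x ij.1 ij.2
  have hf : ∀ θ, SepAff (f θ) := by
    rintro (⟨p, q⟩ | ⟨i, j⟩)
    · exact sepAff_dz p q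
    · exact sepAff_prm i j
  refine ⟨Fintype.card Θ * Fintype.card (Free I piv), fun δ hδ => ?_⟩
  have h1 : ∀ θ : Θ, ∃ η : ℝ, 0 < η ∧ ((∃ x, f θ x ≠ 0) → ∀ (α : Type) [Fintype α] (v : α → ℝ)
      (w : Free I piv → α → ℝ) (ε : ℝ), (∀ c t, 0 ≤ w c t) → (∀ c, ∑ t, w c t = 1) →
      (∀ c (y : ℝ), ∑ t ∈ univ.filter (fun t => |v t - y| ≤ δ), w c t ≤ ε) →
      ∑ x ∈ univ.filter (fun x : Free I piv → α => |f θ (fun j => v (x j))| ≤ η), ∏ c, w c (x c) ≤
        Fintype.card (Free I piv) * ε) := by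
    intro θ
    by_cases h : ∃ x, f θ x ≠ 0
    · obtain ⟨η, hη, h2⟩ := prob_type (f θ) (hf θ) h hδ
      exact ⟨η, hη, fun _ => h2⟩
    · exact ⟨1, one_pos, fun h' => absurd h' h⟩
  choose η hη hprob using h1
  obtain ⟨θ₀, -, hmin⟩ := exists_min_image (univ : Finset Θ) η
    ⟨Sum.inl (fun _ => Sum.inr 0, fun _ => Sum.inr 0), mem_univ _⟩
  obtain ⟨N, hN⟩ : ∃ N : ℕ, N = (s + (n + 1)) * (n * Pool.Agent.R869.tri (s + (n + 1) - 1)) + 1 := ⟨_, rfl⟩
  refine ⟨max 1 ⌈n.factorial * (N : ℝ) / η θ₀⌉₊, fun d hd w ε hw0 hw1 hwd hε => ?_⟩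
  have hd1 : 0 < d := lt_of_lt_of_le one_pos ((le_max_left _ _).trans hd)
  have hd' : (0 : ℝ) < d := by exact_mod_cast hd1
  have hd2 : n.factorial * (N : ℝ) ≤ η θ₀ * d := by
    have h2 : n.factorial * (N : ℝ) / η θ₀ ≤ d := (Nat.le_ceil _).trans (by exact_mod_cast (le_max_right _ _).trans hd)
    rw [div_le_iff₀ (hη θ₀)] at h2
    linarith
  have hε' : ∀ c (y : ℝ), ∑ t ∈ univ.filter (fun t : Fin (d + 1) => |((t : ℕ) : ℝ) / d - y| ≤ δ), w c t ≤ ε := by
    intro c y
    refine le_trans (le_of_eq ?_) (hε c (y * d))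
    congr 1
    ext t
    simp only [mem_filter, mem_univ, true_and]
    have h3 : ((t : ℕ) : ℝ) / d - y = (((t : ℕ) : ℝ) - y * d) / d := by
      field_simp
    rw [h3, abs_div, abs_of_pos hd', div_le_iff₀ hd']
  have hprob' : ∀ θ, (∃ x, f θ x ≠ 0) → ∑ x ∈ univ.filter (fun x : Free I piv → Fin (d + 1) =>
      |f θ (fun j => (((x j : Fin (d + 1)) : ℕ) : ℝ) / d)| ≤ η θ), ∏ c, w c (x c) ≤
        Fintype.card (Free I piv) * ε := fun θ hθ =>
    hprob θ hθ (Fin (d + 1)) (fun t => ((t : ℕ) : ℝ) / d) w ε hw0 hw1 hε'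
  have hε0 : 0 ≤ Fintype.card (Free I piv) * ε := by
    rcases Nat.eq_zero_or_pos (Fintype.card (Free I piv)) with h | h
    · rw [h]
      simp
    · obtain ⟨c⟩ := Fintype.card_pos_iff.1 h
      have h2 : 0 ≤ ε := (sum_nonneg fun t _ => hw0 c t).trans (hε c 0)
      positivity
  -- the bad tuples
  have hbad : ∀ x : Free I piv → Fin (d + 1), ¬ TypI I d (tup I piv d fun c => x c) → ∏ c, w c (x c) ≠ 0 →
      ∃ θ, (∃ x, f θ x ≠ 0) ∧ |f θ (fun j => (((x j : Fin (d + 1)) : ℕ) : ℝ) / d)| ≤ η θ := by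
    intro x hx hwx
    by_contra hcon
    push Not at hcon
    apply hx
    have hxd : ∀ c, n * ((x c : Fin (d + 1)) : ℕ) ≤ d := fun c => hwd c _ (prod_ne_zero_iff.1 hwx c (mem_univ c))
    have ha := tup_mem hpiv hxd
    set a := tup I piv d (fun c => ((x c : Fin (d + 1)) : ℕ)) with haa
    have hscl : (fun j : Free I piv => (((x j : Fin (d + 1)) : ℕ) : ℝ) / d) =
        fun c : Free I piv => sclI d a c.1.1 c.1.2 := by
      funext c
      unfold sclI
      rw [haa, tup_free]
    have hprm := adm_prm (piv := piv) (adm_scl hd1 ha)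
    rw [hscl] at hcon
    refine typ_of_det hI hd1 (η := η θ₀) (by rw [← hN]; exact hd2) ha (fun i j hj h0 => ?_) fun p q hpq => ?_
    · obtain ⟨z, hz, hz0⟩ := adm_ne hI
      have h5 := hcon (Sum.inr (i, j)) ⟨_, by
        change prm I piv _ i j ≠ 0
        rw [adm_prm (piv := piv) hz]
        exact hz0 i j hj⟩
      have h6 : f (Sum.inr (i, j)) (fun c : Free I piv => sclI d a c.1.1 c.1.2) = 0 := by
        change prm I piv _ i j = 0
        rw [hprm]
        unfold sclI
        rw [h0]
        simp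
      rw [h6, abs_zero] at h5
      exact absurd h5 (not_lt.2 (hη _).le)
    · obtain ⟨z, hz, hz0⟩ := hpq
      have h5 := hcon (Sum.inl (p, q)) ⟨_, by
        change (dz p q (prm I piv _)).det ≠ 0
        rw [adm_prm (piv := piv) hz]
        exact hz0⟩
      have h6 : f (Sum.inl (p, q)) (fun c : Free I piv => sclI d a c.1.1 c.1.2) = (dz p q (sclI d a)).det := by
        change (dz p q (prm I piv _)).det = _
        rw [hprm]
      rw [h6] at h5
      exact (hmin _ (mem_univ _)).trans_lt h5
  calc ∑ x ∈ univ.filter (fun x : Free I piv → Fin (d + 1) => ¬ TypI I d (tup I piv d fun c => x c)), ∏ c, w c (x c)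
      ≤ ∑ θ : Θ, ∑ x ∈ univ.filter (fun x : Free I piv → Fin (d + 1) => (∃ x, f θ x ≠ 0) ∧
          |f θ (fun j => (((x j : Fin (d + 1)) : ℕ) : ℝ) / d)| ≤ η θ), ∏ c, w c (x c) := by
        simp only [sum_filter]
        rw [sum_comm]
        refine sum_le_sum fun x _ => ?_
        have hnn : 0 ≤ ∏ c, w c (x c) := prod_nonneg fun c _ => hw0 _ _
        split_ifs with hx
        · exact sum_nonneg fun θ _ => by split_ifs <;> first | exact hnn | exact le_rfl
        · by_cases hwx : ∏ c, w c (x c) = 0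
          · rw [hwx]
            exact sum_nonneg fun θ _ => by split_ifs <;> exact le_rfl
          · obtain ⟨θ, hθ⟩ := hbad x hx hwx
            refine le_trans (le_of_eq ?_) (single_le_sum (f := fun θ => if (∃ x, f θ x ≠ 0) ∧
              |f θ (fun j => (((x j : Fin (d + 1)) : ℕ) : ℝ) / d)| ≤ η θ then ∏ c, w c (x c) else 0)
              (fun θ _ => by
                show 0 ≤ ite _ _ _
                split_ifs
                · exact hnn
                · exact le_rfl) (mem_univ θ))
            rw [if_pos hθ]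
    _ ≤ ∑ θ : Θ, (Fintype.card (Free I piv) * ε : ℝ) := by
        refine sum_le_sum fun θ _ => ?_
        by_cases hθ : ∃ x, f θ x ≠ 0
        · refine le_trans (le_of_eq ?_) (hprob' θ hθ)
          congr 1
          ext x
          simp only [mem_filter, mem_univ, true_and, and_iff_right_iff_imp]
          exact fun _ => hθ
        · rw [filter_false_of_mem (fun x _ h => hθ h.1), sum_empty]
          exact hε0
    _ = _ := by
        rw [sum_const, card_univ, nsmul_eq_mul]
        ring

end Pool.Agent.J4.H93.WS
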