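import Mathlib
import Pool.Agent.H369R2.S6a

/-!
Sets of parameters which are sparse in all products of large sets: zeros of polynomials, and the values at which one polynomial
divides another one.
-/

set_option autoImplicit false

namespace Pool.Agent.J4.H93.WS

open MvPolynomial

/-- The integral value of a polynomial at a vector of natural numbers. -/
noncomputable def evn {m : ℕ} (t : Fin m → ℕ) : MvPolynomial (Fin m) ℤ →+* ℤ := eval fun i => (t i : ℤ)

/-- The number of the elements of `E` in the product of the sets `S i`. -/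
noncomputable def cnt {m : ℕ} (S : Fin m → Finset ℕ) (E : Set (Fin m → ℕ)) : ℕ := {t | (∀ i, t i ∈ S i) ∧ t ∈ E}.ncard

theorem cnt_finite {m : ℕ} (S : Fin m → Finset ℕ) (E : Set (Fin m → ℕ)) : {t | (∀ i, t i ∈ S i) ∧ t ∈ E}.Finite :=
  (Fintype.piFinset S).finite_toSet.subset fun _ ht => Fintype.mem_piFinset.2 ht.1

theorem cnt_mono {m : ℕ} (S : Fin m → Finset ℕ) {E E' : Set (Fin m → ℕ)} (h : E ⊆ E') : cnt S E ≤ cnt S E' :=
  Set.ncard_le_ncard (fun _ ht => ⟨ht.1, h ht.2⟩) (cnt_finite S E')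

theorem cnt_union {m : ℕ} (S : Fin m → Finset ℕ) (E E' : Set (Fin m → ℕ)) : cnt S (E ∪ E') ≤ cnt S E + cnt S E' := by
  unfold cnt
  refine le_trans (Set.ncard_le_ncard ?_ ((cnt_finite S E).union (cnt_finite S E'))) (Set.ncard_union_le _ _)
  rintro t ⟨h1, h2⟩
  exact h2.imp (fun h => ⟨h1, h⟩) fun h => ⟨h1, h⟩

/-- The set `E` is sparse: for all `η > 0` there is a constant `C` such that the proportion of the elements of `E` in each product
of sets `S i ⊆ [0, H]` with at least `q` elements is at most `C H ^ η / q`. -/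
def Sparse {m : ℕ} (E : Set (Fin m → ℕ)) : Prop :=
  ∀ η : ℝ, 0 < η → ∃ C : ℝ, 0 ≤ C ∧ ∀ H : ℕ, 1 ≤ H → ∀ S : Fin m → Finset ℕ, (∀ i, ∀ x ∈ S i, x ≤ H) →
    ∀ q : ℕ, (∀ i, q ≤ (S i).card) → (q : ℝ) * (cnt S E : ℝ) ≤ C * (H : ℝ) ^ η * ∏ i, ((S i).card : ℝ)

theorem Sparse.mono {m : ℕ} {E E' : Set (Fin m → ℕ)} (h : Sparse E) (hE : E' ⊆ E) : Sparse E' := by
  intro η hη
  obtain ⟨C, hC, h1⟩ := h η hη
  refine ⟨C, hC, fun H hH S hS q hq => le_trans ?_ (h1 H hH S hS q hq)⟩
  refine mul_le_mul_of_nonneg_left ?_ (Nat.cast_nonneg _)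
  exact_mod_cast cnt_mono S hE

theorem Sparse.union {m : ℕ} {E E' : Set (Fin m → ℕ)} (h : Sparse E) (h' : Sparse E') : Sparse (E ∪ E') := by
  intro η hη
  obtain ⟨C, hC, h1⟩ := h η hη
  obtain ⟨C', hC', h2⟩ := h' η hη
  refine ⟨C + C', by positivity, fun H hH S hS q hq => ?_⟩
  have h4 : (cnt S (E ∪ E') : ℝ) ≤ cnt S E + cnt S E' := by
    exact_mod_cast cnt_union S E E'
  have h5 := mul_le_mul_of_nonneg_left h4 (Nat.cast_nonneg (α := ℝ) q)
  have h6 := h1 H hH S hS q hq
  have h7 := h2 H hH S hS q hq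
  nlinarith

theorem sparse_empty {m : ℕ} : Sparse (∅ : Set (Fin m → ℕ)) := by
  intro η hη
  refine ⟨0, le_rfl, fun H hH S hS q hq => ?_⟩
  simp [cnt]

/-- The filter of the complements of the sparse sets. -/
def sparseFilter (m : ℕ) : Filter (Fin m → ℕ) where
  sets := {X | Sparse Xᶜ}
  univ_sets := by
    show Sparse (Set.univ)ᶜ
    rw [Set.compl_univ]
    exact sparse_empty
  sets_of_superset := by
    intro X Y hX hXY
    exact Sparse.mono hX (Set.compl_subset_compl.2 hXY)
  inter_sets := by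
    intro X Y hX hY
    show Sparse (X ∩ Y)ᶜ
    rw [Set.compl_inter]
    exact Sparse.union hX hY

theorem eventually_sparse {m : ℕ} {P : (Fin m → ℕ) → Prop} : (∀ᶠ t in sparseFilter m, P t) ↔ Sparse {t | ¬ P t} := Iff.rfl

/-- The zeros of a nonzero polynomial. -/
theorem sparse_zeros {m : ℕ} {P : MvPolynomial (Fin m) ℤ} (hP : P ≠ 0) : Sparse {t | evn t P = 0} := by
  classical
  intro η hη
  refine ⟨P.totalDegree, by positivity, fun H hH S hS q hq => ?_⟩
  have hH1 : (1 : ℝ) ≤ (H : ℝ) ^ η := Real.one_le_rpow (by exact_mod_cast hH) hη.le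
  rcases Nat.eq_zero_or_pos q with hq0 | hq0
  · rw [hq0]
    simp only [Nat.cast_zero, zero_mul]
    positivity
  have hq' : (0 : ℝ) < q := by exact_mod_cast hq0
  have hS0 : ∀ i, 0 < (S i).card := fun i => lt_of_lt_of_le hq0 (hq i)
  have h1 := MvPolynomial.schwartz_zippel_sup_sum hP fun i => (S i).image (fun x : ℕ => (x : ℤ))
  have hcard : ∀ i, ((S i).image (fun x : ℕ => (x : ℤ))).card = (S i).card := fun i =>
    Finset.card_image_of_injective _ Nat.cast_injective
  simp only [hcard] at h1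
  have h2 : (P.support.sup fun s => ∑ i, ((s i : NNRat) / ((S i).card : NNRat))) ≤ (P.totalDegree : NNRat) / q := by
    apply Finset.sup_le
    intro s hs
    have hq'' : (0 : NNRat) < q := by exact_mod_cast hq0
    calc ∑ i, ((s i : NNRat) / ((S i).card : NNRat)) ≤ ∑ i, ((s i : NNRat) / q) := by
          refine Finset.sum_le_sum fun i _ => ?_
          apply div_le_div_of_nonneg_left (by positivity) hq''
          exact_mod_cast hq i
      _ = (∑ i, (s i : NNRat)) / q := by rw [Finset.sum_div]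
      _ ≤ (P.totalDegree : NNRat) / q := by
          gcongr
          have h3 := MvPolynomial.le_totalDegree hs
          rw [Finsupp.sum_fintype _ _ (fun _ => rfl)] at h3
          exact_mod_cast h3
  have h3 := h1.trans h2
  have hprod : (0 : ℝ) < ∏ i, ((S i).card : ℝ) := Finset.prod_pos fun i _ => by exact_mod_cast hS0 i
  have hN : cnt S {t | evn t P = 0} ≤
      ((Fintype.piFinset fun i => (S i).image (fun x : ℕ => (x : ℤ))).filter (fun x => eval x P = 0)).card := by
    unfold cnt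
    rw [← Set.ncard_coe_finset]
    apply Set.ncard_le_ncard_of_injOn (fun t => fun i => (t i : ℤ))
    · intro t ht
      rw [Finset.mem_coe, Finset.mem_filter, Fintype.mem_piFinset]
      exact ⟨fun i => Finset.mem_image_of_mem _ (ht.1 i), ht.2⟩
    · intro t _ t' _ h
      funext i
      have h' : (t i : ℤ) = t' i := congrFun h i
      exact_mod_cast h'
  have h4 : ((((Fintype.piFinset fun i => (S i).image (fun x : ℕ => (x : ℤ))).filter (fun x => eval x P = 0)).card : ℕ) : ℝ) /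
      ∏ i, ((S i).card : ℝ) ≤ (P.totalDegree : ℝ) / q := by
    have h5 : ((((((Fintype.piFinset fun i => (S i).image (fun x : ℕ => (x : ℤ))).filter
      (fun x => eval x P = 0)).card : ℕ) : NNRat) / ∏ i, ((S i).card : NNRat) : NNRat) : ℝ) ≤
        (((P.totalDegree : NNRat) / q : NNRat) : ℝ) := by exact_mod_cast h3
    push_cast at h5
    exact h5
  rw [div_le_div_iff₀ hprod hq'] at h4
  have h6 : (cnt S {t | evn t P = 0} : ℝ) ≤
    (((Fintype.piFinset fun i => (S i).image (fun x : ℕ => (x : ℤ))).filter (fun x => eval x P = 0)).card : ℝ) := by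
    exact_mod_cast hN
  calc (q : ℝ) * (cnt S {t | evn t P = 0} : ℝ)
      ≤ P.totalDegree * ∏ i, ((S i).card : ℝ) := by nlinarith
    _ ≤ P.totalDegree * (H : ℝ) ^ η * ∏ i, ((S i).card : ℝ) := by
        have h7 : (0 : ℝ) ≤ P.totalDegree := Nat.cast_nonneg _
        nlinarith [mul_nonneg h7 hprod.le]

theorem eventually_ne {m : ℕ} {P : MvPolynomial (Fin m) ℤ} (hP : P ≠ 0) : ∀ᶠ t in sparseFilter m, evn t P ≠ 0 := by
  rw [eventually_sparse]
  exact (sparse_zeros hP).mono fun t ht => not_not.1 ht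

/-- The size of the values. -/
theorem abs_evn_le {m : ℕ} (P : MvPolynomial (Fin m) ℤ) : ∃ C : ℝ, 1 ≤ C ∧ ∀ H : ℕ, 1 ≤ H → ∀ t : Fin m → ℕ,
    (∀ i, t i ≤ H) → |((evn t P : ℤ) : ℝ)| ≤ C * (H : ℝ) ^ P.totalDegree := by
  refine ⟨1 + ∑ s ∈ P.support, |((coeff s P : ℤ) : ℝ)|, ?_, fun H hH t ht => ?_⟩
  · have : 0 ≤ ∑ s ∈ P.support, |((coeff s P : ℤ) : ℝ)| := Finset.sum_nonneg fun _ _ => abs_nonneg _
    linarith
  · have hH' : (1 : ℝ) ≤ H := by exact_mod_cast hH
    unfold evn
    rw [eval_eq']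
    push_cast
    calc |∑ s ∈ P.support, ((coeff s P : ℤ) : ℝ) * ∏ i, (t i : ℝ) ^ s i|
        ≤ ∑ s ∈ P.support, |((coeff s P : ℤ) : ℝ) * ∏ i, (t i : ℝ) ^ s i| := Finset.abs_sum_le_sum_abs _ _
      _ ≤ ∑ s ∈ P.support, |((coeff s P : ℤ) : ℝ)| * (H : ℝ) ^ P.totalDegree := by
          refine Finset.sum_le_sum fun s hs => ?_
          rw [abs_mul]
          refine mul_le_mul_of_nonneg_left ?_ (abs_nonneg _)
          rw [abs_of_nonneg (by positivity)]
          calc ∏ i, (t i : ℝ) ^ s i ≤ ∏ i, (H : ℝ) ^ s i := by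
                refine Finset.prod_le_prod (fun i _ => by positivity) fun i _ => ?_
                gcongr
                exact_mod_cast ht i
            _ = (H : ℝ) ^ ∑ i, s i := Finset.prod_pow_eq_pow_sum _ _ _
            _ ≤ (H : ℝ) ^ P.totalDegree := by
                apply pow_le_pow_right₀ hH'
                have h3 := MvPolynomial.le_totalDegree hs
                rwa [Finsupp.sum_fintype _ _ (fun _ => rfl)] at h3
      _ = (∑ s ∈ P.support, |((coeff s P : ℤ) : ℝ)|) * (H : ℝ) ^ P.totalDegree := by rw [Finset.sum_mul]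
      _ ≤ _ := by
          have : (0 : ℝ) ≤ (H : ℝ) ^ P.totalDegree := by positivity
          linarith

open Polynomial in
/-- A prime polynomial that involves the variable and does not divide `G`: a combination of both is a nonzero constant. -/
theorem bezout {A : Type} [CommRing A] [IsDomain A] {π G : A[X]} (hπ : Prime π) (hG : ¬ π ∣ G) :
    ∃ (r : A) (U V : A[X]), r ≠ 0 ∧ U * π + V * G = Polynomial.C r := by
  have hdom : IsDomain (AdjoinRoot π) := AdjoinRoot.isDomain_of_prime hπ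
  have h1 : IsAlgebraic A (AdjoinRoot.root π) := AdjoinRoot.isAlgebraic_root hπ.ne_zero
  have h2 := (Algebra.isAlgebraic_adjoin_singleton_iff (R := A) (s := AdjoinRoot.root π)).2 h1
  have h3 : IsAlgebraic A (AdjoinRoot.mk π G) := by
    rw [← AdjoinRoot.aeval_eq]
    exact h2 _ (Polynomial.aeval_mem_adjoin_singleton _ _)
  have h4 : AdjoinRoot.mk π G ≠ 0 := fun h => hG (AdjoinRoot.mk_eq_zero.1 h)
  obtain ⟨r, hr, y, hy⟩ := h3.exists_nonzero_dvd (mem_nonZeroDivisors_of_ne_zero h4)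
  obtain ⟨V, rfl⟩ := AdjoinRoot.mk_surjective y
  have h5 : AdjoinRoot.mk π (Polynomial.C r - G * V) = 0 := by
    rw [map_sub, map_mul, ← hy, sub_eq_zero]
    rfl
  obtain ⟨U, hU⟩ := AdjoinRoot.mk_eq_zero.1 h5
  exact ⟨r, U, V, hr, by linear_combination -hU⟩

end Pool.Agent.J4.H93.WS
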