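import Pool.Agent.J4.H93.WS.WS5

/-!
The values at which one polynomial in several variables divides another one.
-/

set_option autoImplicit false

namespace Pool.Agent.J4.H93.WS

open MvPolynomial

theorem evn_rename_succ {n : ℕ} (r : MvPolynomial (Fin n) ℤ) (t : Fin (n + 1) → ℕ) :
    evn t (rename Fin.succ r) = evn (fun i => t i.succ) r := by
  unfold evn
  rw [eval_rename]
  rfl

theorem evn_cons {n : ℕ} (P : MvPolynomial (Fin (n + 1)) ℤ) (x : ℕ) (y : Fin n → ℕ) :
    evn (Fin.cons x y : Fin (n + 1) → ℕ) P =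
      ((finSuccEquiv ℤ n P).map (evn y)).eval (x : ℤ) := by
  unfold evn
  rw [← eval_eq_eval_mv_eval']
  congr 1
  congr 1
  funext i
  refine Fin.cases ?_ (fun i => ?_) i
  · simp
  · simp

/-- The number of the integers at which a polynomial has a given value. -/
theorem card_value_le {p : Polynomial ℤ} (hp : 0 < p.natDegree) (v : ℤ) (S : Finset ℕ) :
    (S.filter fun x : ℕ => p.eval (x : ℤ) = v).card ≤ p.natDegree := by
  have h0 : p - Polynomial.C v ≠ 0 := by
    intro h
    have h1 : p = Polynomial.C v := sub_eq_zero.1 h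
    rw [h1, Polynomial.natDegree_C] at hp
    exact lt_irrefl _ hp
  calc (S.filter fun x : ℕ => p.eval (x : ℤ) = v).card ≤ (p - Polynomial.C v).roots.toFinset.card := by
        apply Finset.card_le_card_of_injOn (fun x : ℕ => (x : ℤ))
        · intro x hx
          rw [Finset.mem_coe, Finset.mem_filter] at hx
          rw [Finset.mem_coe, Multiset.mem_toFinset, Polynomial.mem_roots h0]
          show Polynomial.eval _ _ = 0
          rw [Polynomial.eval_sub, Polynomial.eval_C, hx.2, sub_self]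
        · exact Nat.cast_injective.injOn
    _ ≤ Multiset.card (p - Polynomial.C v).roots := Multiset.toFinset_card_le _
    _ ≤ (p - Polynomial.C v).natDegree := Polynomial.card_roots' _
    _ = p.natDegree := Polynomial.natDegree_sub_C

/-- The number of the integers at which the value of a polynomial divides a given integer. -/
theorem card_dvd_le {p : Polynomial ℤ} (hp : 0 < p.natDegree) {r : ℤ} (hr : r ≠ 0) (S : Finset ℕ) :
    (S.filter fun x : ℕ => p.eval (x : ℤ) ∣ r).card ≤ 2 * r.natAbs.divisors.card * p.natDegree := by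
  classical
  have h1 : (S.filter fun x : ℕ => p.eval (x : ℤ) ∣ r) ⊆
      (r.natAbs.divisors ×ˢ (Finset.univ : Finset Bool)).biUnion fun v =>
        S.filter fun x : ℕ => p.eval (x : ℤ) = if v.2 then (v.1 : ℤ) else -(v.1 : ℤ) := by
    intro x hx
    rw [Finset.mem_filter] at hx
    rw [Finset.mem_biUnion]
    have h2 : (p.eval (x : ℤ)).natAbs ∈ r.natAbs.divisors := by
      rw [Nat.mem_divisors]
      exact ⟨Int.natAbs_dvd_natAbs.2 hx.2, fun h => hr (Int.natAbs_eq_zero.1 h)⟩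
    rcases Int.natAbs_eq (p.eval (x : ℤ)) with h3 | h3
    · exact ⟨((p.eval (x : ℤ)).natAbs, true), Finset.mem_product.2 ⟨h2, Finset.mem_univ _⟩,
        Finset.mem_filter.2 ⟨hx.1, by simpa using h3⟩⟩
    · exact ⟨((p.eval (x : ℤ)).natAbs, false), Finset.mem_product.2 ⟨h2, Finset.mem_univ _⟩,
        Finset.mem_filter.2 ⟨hx.1, by simpa using h3⟩⟩
  refine (Finset.card_le_card h1).trans (Finset.card_biUnion_le.trans ?_)
  refine (Finset.sum_le_sum fun v _ => card_value_le hp _ S).trans (le_of_eq ?_)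
  rw [Finset.sum_const, Finset.card_product, Finset.card_univ, Fintype.card_bool, smul_eq_mul]
  ring

/-- A prime polynomial that involves the first variable. -/
theorem sparse_dvd_zero {n : ℕ} {π G : MvPolynomial (Fin (n + 1)) ℤ} (hπ : Prime π) (hd : 0 < degreeOf 0 π)
    (hG : ¬ π ∣ G) : Sparse {t | evn t π ∣ evn t G} := by
  classical
  obtain ⟨Φ, hΦ⟩ : ∃ Φ, Φ = finSuccEquiv ℤ n := ⟨_, rfl⟩
  have hπ' : Prime (Φ π) := (MulEquiv.prime_iff Φ).2 hπ
  have hG' : ¬ Φ π ∣ Φ G := fun h => hG ((map_dvd_iff Φ).1 h)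
  obtain ⟨r, U, V, hr, hb⟩ := bezout hπ' hG'
  obtain ⟨ℓ, hℓ⟩ : ∃ ℓ, ℓ = (Φ π).leadingCoeff := ⟨_, rfl⟩
  have hℓ0 : ℓ ≠ 0 := by
    rw [hℓ]
    exact Polynomial.leadingCoeff_ne_zero.2 hπ'.ne_zero
  have hdeg : (Φ π).natDegree = degreeOf 0 π := by
    rw [hΦ]
    exact natDegree_finSuccEquiv π
  have hsucc : Function.Injective (rename Fin.succ : MvPolynomial (Fin n) ℤ →ₐ[ℤ] MvPolynomial (Fin (n + 1)) ℤ) :=
    rename_injective _ (Fin.succ_injective n)
  have hr' : rename Fin.succ r ≠ 0 := fun h => hr (hsucc (by rw [h, map_zero]))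
  have hℓ' : rename Fin.succ ℓ ≠ 0 := fun h => hℓ0 (hsucc (by rw [h, map_zero]))
  have hmain : Sparse {t : Fin (n + 1) → ℕ | evn (fun i => t i.succ) r ≠ 0 ∧ evn (fun i => t i.succ) ℓ ≠ 0 ∧
      evn t π ∣ evn t G} := by
    intro η hη
    obtain ⟨Cr, hCr1, hCr⟩ := abs_evn_le r
    obtain ⟨ε, hε⟩ : ∃ ε : ℝ, ε = η / (r.totalDegree + 1) := ⟨_, rfl⟩
    have hε0 : 0 < ε := by
      rw [hε]
      positivity
    obtain ⟨Cd, hCd0, hCd⟩ := Pool.Agent.H369R2.divisor_bound ε hε0
    obtain ⟨δ, hδ⟩ : ∃ δ, δ = degreeOf 0 π := ⟨_, rfl⟩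
    refine ⟨2 * δ * (Cd * Cr ^ ε), by positivity, fun H hH S hS q hq => ?_⟩
    have hH' : (1 : ℝ) ≤ H := by exact_mod_cast hH
    have hH0 : (0 : ℝ) < H := by linarith
    -- the fibres
    let Y := (Fintype.piFinset (fun i : Fin n => S i.succ)).filter fun y => evn y r ≠ 0 ∧ evn y ℓ ≠ 0
    let X : (Fin n → ℕ) → Finset ℕ := fun y => (S 0).filter fun x =>
      evn (Fin.cons x y : Fin (n + 1) → ℕ) π ∣ evn (Fin.cons x y : Fin (n + 1) → ℕ) G
    have hX : ∀ y ∈ Y, ((X y).card : ℝ) ≤ 2 * δ * (Cd * Cr ^ ε) * (H : ℝ) ^ η := by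
      intro y hy
      obtain ⟨hyS, hyr, hyℓ⟩ := Finset.mem_filter.1 hy
      rw [Fintype.mem_piFinset] at hyS
      obtain ⟨p, hp⟩ : ∃ p, p = (Φ π).map (evn y) := ⟨_, rfl⟩
      have hpd : p.natDegree = δ := by
        rw [hp, Polynomial.natDegree_map_of_leadingCoeff_ne_zero _ (by rw [← hℓ]; exact hyℓ), hdeg, hδ]
      have hpd0 : 0 < p.natDegree := by
        rw [hpd, hδ]
        exact hd
      have h1 : X y ⊆ (S 0).filter fun x : ℕ => p.eval (x : ℤ) ∣ evn y r := by
        intro x hx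
        obtain ⟨hxS, hxd⟩ := Finset.mem_filter.1 hx
        refine Finset.mem_filter.2 ⟨hxS, ?_⟩
        rw [evn_cons, evn_cons, ← hΦ, ← hp] at hxd
        have h2 := congrArg (fun P => (P.map (evn y)).eval (x : ℤ)) hb
        simp only [Polynomial.map_add, Polynomial.map_mul, Polynomial.eval_add, Polynomial.eval_mul, Polynomial.map_C,
          Polynomial.eval_C] at h2
        rw [← hp] at h2
        rw [← h2]
        exact dvd_add (dvd_mul_left _ _) (dvd_mul_of_dvd_right hxd _)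
      have h2 : (X y).card ≤ 2 * (evn y r).natAbs.divisors.card * δ := by
        rw [← hpd]
        exact (Finset.card_le_card h1).trans (card_dvd_le hpd0 hyr (S 0))
      have h3 : ((evn y r).natAbs : ℝ) ≤ Cr * (H : ℝ) ^ r.totalDegree := by
        have h4 := hCr H hH y fun i => hS _ _ (hyS i)
        rw [Nat.cast_natAbs]
        exact_mod_cast h4
      have h5 := hCd (evn y r).natAbs (Int.natAbs_pos.2 hyr)
      have h6 : (((evn y r).natAbs : ℕ) : ℝ) ^ ε ≤ Cr ^ ε * (H : ℝ) ^ η := by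
        calc (((evn y r).natAbs : ℕ) : ℝ) ^ ε ≤ (Cr * (H : ℝ) ^ r.totalDegree) ^ ε := by
              apply Real.rpow_le_rpow (Nat.cast_nonneg _) h3 hε0.le
          _ = Cr ^ ε * ((H : ℝ) ^ r.totalDegree) ^ ε := Real.mul_rpow (by linarith) (by positivity)
          _ = Cr ^ ε * (H : ℝ) ^ (r.totalDegree * ε) := by
              rw [← Real.rpow_natCast, ← Real.rpow_mul hH0.le]
          _ ≤ Cr ^ ε * (H : ℝ) ^ η := by
              refine mul_le_mul_of_nonneg_left ?_ (by positivity)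
              apply Real.rpow_le_rpow_of_exponent_le hH'
              rw [hε]
              have h7 : (0 : ℝ) < (r.totalDegree : ℝ) + 1 := by positivity
              rw [mul_div_assoc', div_le_iff₀ h7]
              nlinarith
      calc ((X y).card : ℝ) ≤ 2 * ((evn y r).natAbs.divisors.card : ℝ) * δ := by exact_mod_cast h2
        _ ≤ 2 * (Cd * (Cr ^ ε * (H : ℝ) ^ η)) * δ := by
            gcongr
            exact h5.trans (mul_le_mul_of_nonneg_left h6 hCd0.le)
        _ = _ := by ring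
    have h8 : cnt S {t : Fin (n + 1) → ℕ | evn (fun i => t i.succ) r ≠ 0 ∧ evn (fun i => t i.succ) ℓ ≠ 0 ∧
        evn t π ∣ evn t G} ≤ ∑ y ∈ Y, (X y).card := by
      unfold cnt
      have h9 : {t : Fin (n + 1) → ℕ | (∀ i, t i ∈ S i) ∧ t ∈ {t : Fin (n + 1) → ℕ | evn (fun i => t i.succ) r ≠ 0 ∧
          evn (fun i => t i.succ) ℓ ≠ 0 ∧ evn t π ∣ evn t G}} ⊆
          ((Y.biUnion fun y => (X y).image fun x => (Fin.cons x y : Fin (n + 1) → ℕ) : Finset (Fin (n + 1) → ℕ)) :
            Set (Fin (n + 1) → ℕ)) := by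
        rintro t ⟨ht, h1, h2, h3⟩
        rw [Finset.mem_coe, Finset.mem_biUnion]
        have hcons : (Fin.cons (t 0) (fun i : Fin n => t i.succ) : Fin (n + 1) → ℕ) = t := by
          funext i
          refine Fin.cases ?_ (fun i => ?_) i <;> simp
        refine ⟨fun i => t i.succ, Finset.mem_filter.2 ⟨Fintype.mem_piFinset.2 fun i => ht _, h1, h2⟩,
          Finset.mem_image.2 ⟨t 0, Finset.mem_filter.2 ⟨ht 0, ?_⟩, hcons⟩⟩
        rw [hcons]
        exact h3
      refine (Set.ncard_le_ncard h9 (Finset.finite_toSet _)).trans ?_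
      rw [Set.ncard_coe_finset]
      exact Finset.card_biUnion_le.trans (Finset.sum_le_sum fun y _ => Finset.card_image_le)
    have h10 : (cnt S {t : Fin (n + 1) → ℕ | evn (fun i => t i.succ) r ≠ 0 ∧ evn (fun i => t i.succ) ℓ ≠ 0 ∧
        evn t π ∣ evn t G} : ℝ) ≤ (∏ i : Fin n, ((S i.succ).card : ℝ)) * (2 * δ * (Cd * Cr ^ ε) * (H : ℝ) ^ η) := by
      calc (cnt S {t : Fin (n + 1) → ℕ | evn (fun i => t i.succ) r ≠ 0 ∧ evn (fun i => t i.succ) ℓ ≠ 0 ∧
            evn t π ∣ evn t G} : ℝ) ≤ ∑ y ∈ Y, ((X y).card : ℝ) := by exact_mod_cast h8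
        _ ≤ ∑ y ∈ Y, (2 * δ * (Cd * Cr ^ ε) * (H : ℝ) ^ η) := Finset.sum_le_sum hX
        _ = (Y.card : ℝ) * (2 * δ * (Cd * Cr ^ ε) * (H : ℝ) ^ η) := by rw [Finset.sum_const, nsmul_eq_mul]
        _ ≤ _ := by
            refine mul_le_mul_of_nonneg_right ?_ (by positivity)
            have h11 : Y.card ≤ ∏ i : Fin n, (S i.succ).card := by
              refine (Finset.card_filter_le _ _).trans (le_of_eq ?_)
              rw [Fintype.card_piFinset]
            exact_mod_cast h11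
    have hq0 : (q : ℝ) ≤ (S 0).card := by exact_mod_cast hq 0
    rw [Fin.prod_univ_succ]
    have h12 : (0 : ℝ) ≤ (∏ i : Fin n, ((S i.succ).card : ℝ)) * (2 * δ * (Cd * Cr ^ ε) * (H : ℝ) ^ η) := by positivity
    calc (q : ℝ) * (cnt S {t : Fin (n + 1) → ℕ | evn (fun i => t i.succ) r ≠ 0 ∧ evn (fun i => t i.succ) ℓ ≠ 0 ∧
          evn t π ∣ evn t G} : ℝ)
        ≤ (S 0).card * ((∏ i : Fin n, ((S i.succ).card : ℝ)) * (2 * δ * (Cd * Cr ^ ε) * (H : ℝ) ^ η)) :=
          mul_le_mul hq0 h10 (Nat.cast_nonneg _) (Nat.cast_nonneg _)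
      _ = _ := by ring
  refine ((sparse_zeros hr').union ((sparse_zeros hℓ').union hmain)).mono ?_
  intro t ht
  by_cases h1 : evn (fun i => t i.succ) r = 0
  · left
    show evn t (rename Fin.succ r) = 0
    rw [evn_rename_succ, h1]
  by_cases h2 : evn (fun i => t i.succ) ℓ = 0
  · right
    left
    show evn t (rename Fin.succ ℓ) = 0
    rw [evn_rename_succ, h2]
  exact Or.inr (Or.inr ⟨h1, h2, ht⟩)

/-- Permutations of the parameters. -/
theorem Sparse.perm {m : ℕ} {E : Set (Fin m → ℕ)} (e : Equiv.Perm (Fin m)) (h : Sparse {t | (fun i => t (e i)) ∈ E}) :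
    Sparse E := by
  intro η hη
  obtain ⟨C, hC, h1⟩ := h η hη
  refine ⟨C, hC, fun H hH S hS q hq => ?_⟩
  have h2 := h1 H hH (fun i => S (e.symm i)) (fun i => hS _) q (fun i => hq _)
  have h3 : cnt S E = cnt (fun i => S (e.symm i)) {t | (fun i => t (e i)) ∈ E} := by
    unfold cnt
    apply Set.ncard_congr (fun t _ => fun i => t (e.symm i))
    · rintro t ⟨ht, htE⟩
      refine ⟨fun i => ht _, ?_⟩
      show (fun i => t (e.symm (e i))) ∈ E
      simpa using htE
    · intro t t' _ _ h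
      funext i
      have := congrFun h (e i)
      simpa using this
    · rintro t ⟨ht, htE⟩
      refine ⟨fun i => t (e i), ⟨fun i => ?_, htE⟩, ?_⟩
      · have := ht (e i)
        simpa using this
      · funext i
        exact congrArg t (e.apply_symm_apply i)
  rw [h3]
  refine h2.trans (le_of_eq ?_)
  congr 1
  exact Fintype.prod_equiv e.symm _ _ fun i => rfl

theorem sparse_dvd_prime {m : ℕ} {π G : MvPolynomial (Fin m) ℤ} (hπ : Prime π) (hc : ∀ c : ℤ, π ≠ C c)
    (hG : ¬ π ∣ G) : Sparse {t | evn t π ∣ evn t G} := by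
  classical
  have hi : ∃ i, 0 < degreeOf i π := by
    by_contra hcon
    push Not at hcon
    have h1 : π.totalDegree = 0 := by
      apply Nat.le_zero.1
      apply Finset.sup_le
      intro s hs
      rw [Finsupp.sum_fintype _ _ (fun _ => rfl)]
      rw [Finset.sum_eq_zero]
      intro i _
      have h2 : s i ≤ degreeOf i π := monomial_le_degreeOf i hs
      have h3 := hcon i
      omega
    exact hc _ (totalDegree_eq_zero_iff_eq_C.1 h1)
  obtain ⟨i, hi⟩ := hi
  obtain ⟨n, rfl⟩ : ∃ n, m = n + 1 := ⟨m - 1, by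
    have := i.pos
    omega⟩
  let e : Equiv.Perm (Fin (n + 1)) := Equiv.swap 0 i
  apply Sparse.perm e
  have hev : ∀ (P : MvPolynomial (Fin (n + 1)) ℤ) (t : Fin (n + 1) → ℕ), evn (fun i => t (e i)) P = evn t (rename e P) := by
    intro P t
    unfold evn
    rw [eval_rename]
    rfl
  have h1 : {t : Fin (n + 1) → ℕ | (fun i => t (e i)) ∈ {t | evn t π ∣ evn t G}} =
      {t | evn t (rename e π) ∣ evn t (rename e G)} := by
    ext t
    show evn (fun i => t (e i)) π ∣ evn (fun i => t (e i)) G ↔ _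
    rw [hev, hev]
    rfl
  rw [h1]
  apply sparse_dvd_zero
  · exact (MulEquiv.prime_iff (renameEquiv ℤ e)).2 hπ
  · have h2 := degreeOf_rename_of_injective (p := π) e.injective i
    have h3 : e i = 0 := Equiv.swap_apply_right 0 i
    rw [h3] at h2
    rw [h2]
    exact hi
  · intro h
    exact hG ((map_dvd_iff (renameEquiv ℤ e)).1 h)

/-- **Divisibility of values.** -/
theorem sparse_dvd {m : ℕ} {D G : MvPolynomial (Fin m) ℤ} (hD : D ≠ 0) (h : ∀ c : ℤ, c ≠ 0 → ¬ D ∣ C c * G) :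
    Sparse {t | evn t D ∣ evn t G} := by
  classical
  obtain ⟨D', G', g, hrel, rfl, rfl⟩ := UniqueFactorizationMonoid.exists_reduced_factors D hD G
  have hg : g ≠ 0 := left_ne_zero_of_mul hD
  have hD' : D' ≠ 0 := right_ne_zero_of_mul hD
  have hnc : ∀ c : ℤ, D' ≠ C c := by
    rintro c rfl
    have hc : c ≠ 0 := by
      rintro rfl
      exact hD' (map_zero _)
    apply h c hc
    exact ⟨G', by ring⟩
  -- a prime factor which is not constant
  have hfac : ∀ P : MvPolynomial (Fin m) ℤ, P ≠ 0 → (∃ c : ℤ, P = C c) ∨ ∃ π, Prime π ∧ π ∣ P ∧ ∀ c : ℤ, π ≠ C c := by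
    intro P
    induction P using UniqueFactorizationMonoid.induction_on_prime with
    | h₁ => exact fun h => absurd rfl h
    | h₂ u hu =>
      intro _
      left
      rw [isUnit_iff_eq_C_of_isReduced] at hu
      obtain ⟨c, -, hc⟩ := hu
      exact ⟨c, hc⟩
    | h₃ a p ha hp ih =>
      intro _
      by_cases hpc : ∃ c : ℤ, p = C c
      · obtain ⟨c, rfl⟩ := hpc
        rcases ih ha with ⟨c', rfl⟩ | ⟨π, h1, h2, h3⟩
        · exact Or.inl ⟨c * c', by rw [C_mul]⟩
        · exact Or.inr ⟨π, h1, h2.mul_left _, h3⟩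
      · push Not at hpc
        exact Or.inr ⟨p, hp, dvd_mul_right _ _, hpc⟩
  rcases hfac D' hD' with ⟨c, hc⟩ | ⟨π, hπ, hπD, hπc⟩
  · exact absurd hc (hnc c)
  have hπG : ¬ π ∣ G' := fun h1 => hπ.not_isUnit (hrel hπD h1)
  refine ((sparse_zeros hg).union (sparse_dvd_prime hπ hπc hπG)).mono ?_
  intro t ht
  by_cases h0 : evn t g = 0
  · exact Or.inl h0
  · right
    have h1 : evn t (g * D') ∣ evn t (g * G') := ht
    rw [map_mul, map_mul] at h1
    have h2 := (mul_dvd_mul_iff_left h0).1 h1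
    exact (map_dvd (evn t) hπD).trans h2

end Pool.Agent.J4.H93.WS
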